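import Pool.Agent.Y294.IV.D.Stm

/-!
Charts of chains of reflections with flights of any sign: adapted from `Pool/Agent/Y919/TB/Chart.lean`
(helper919) and `Pool/Agent/TH746/IR/VChn.lean`.
-/

set_option autoImplicit false

open MeasureTheory Set Filter Topology
open scoped InnerProductSpace
open Pool.Agent.H721R2.Quart Pool.Agent.H721R2.Ivrii

namespace Pool.Agent.Y294.IV.D

open Pool.Agent.TH746 Pool.Agent.TH746.AL
open Pool.Agent.TH746.IR (VOrb)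

variable {E : Type*} [NormedAddCommGroup E] [InnerProductSpace ℝ E] [FiniteDimensional ℝ E]

theorem chart_gen {Ω : Set E}
    {n : ℕ} {p u : ℕ → E} (hpos : 1 ≤ n) (h : VOrb Ω p u) (hclo : p n = p 0) :
    ∃ (a b : E) (C : Chn E ((ℝ ∙ a)ᗮ × (ℝ ∙ b)ᗮ)), a ≠ 0 ∧ b ≠ 0 ∧
      C.N = n ∧ C.g = AffineIsometryEquiv.refl ℝ E ∧
      ((∃ X : (ℝ ∙ a)ᗮ → E, C.x 0 = fun z => X z.1) ∧
        (∃ ν : (ℝ ∙ a)ᗮ → E, C.n 0 = fun z => ν z.1) ∧
        (∃ Y : (ℝ ∙ b)ᗮ → E, C.e 0 = fun z => Y z.2)) ∧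
      (∀ z ∈ C.U, ∀ k ≤ n, ContDiffAt ℝ 1 (C.x k) z) ∧
      (∀ k ≤ n, ∃ (c : E) (T : E →L[ℝ] (ℝ ∙ c)ᗮ), c ≠ 0 ∧
        (∀ z ∈ C.U, ∀ z' ∈ C.U, T (C.x k z) = T (C.x k z') → C.x k z = C.x k z') ∧
        ∀ z ∈ C.U, ∀ ζ, T (fderiv ℝ (C.x k) z ζ) = 0 → fderiv ℝ (C.x k) z ζ = 0) ∧
      (∀ m ≤ n, ∃ K, LipschitzOnWith K (fun z => (C.x m z, C.e m z)) C.U) ∧
      ∀ᶠ w : (ℕ → E) × (ℕ → E) in 𝓝 (p, u), VOrb Ω w.1 w.2 → w.1 n = w.1 0 →
        ∃ z ∈ C.U, (∀ k ≤ n, C.x k z = w.1 k ∧ C.e k z = w.2 k) ∧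
          C.n C.N z = C.n 0 z ∧ ∀ k < n, ZeroCurv Ω (w.1 k) → C.S k z = 0 := by
  classical
  have hreg := h.reg
  choose F₀ hF₀ htr₀ using hreg
  obtain ⟨F, hFd⟩ : ∃ F : ℕ → E → ℝ, F = fun i => if i = n then F₀ 0 else F₀ i := ⟨_, rfl⟩
  have hFn : F n = F 0 := by
    rw [hFd]
    simp only [if_true]
    rw [if_neg (by omega)]
  have dF : ∀ k, LocalDef Ω (p k) (F k) := by
    intro k
    rw [hFd]
    by_cases hk : k = n
    · simp only [hk, if_true]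
      rw [hclo]
      exact hF₀ 0
    · simp only [hk, if_false]
      exact hF₀ k
  have hunit := h.units
  have htrF : ∀ k, ⟪gradient (F k) (p k), u k⟫_ℝ ≠ 0 := by
    intro k
    obtain ⟨F', hF', hF't⟩ := h.reg k
    obtain ⟨l, hl, hll⟩ := grad_parallel hF' (dF k)
    rw [hll, real_inner_smul_left]
    exact mul_ne_zero hl hF't
  have hst : ∀ k, u (k + 1) = rf (dir (gradient (F (k + 1)) (p (k + 1)))) (u k) ∧
      ⟪gradient (F (k + 1)) (p (k + 1)), u k⟫_ℝ ≠ 0 := by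
    intro k
    have h1 := h.refl k _ (dF (k + 1))
    refine ⟨h1, fun h0 => htrF (k + 1) ?_⟩
    rw [h1]
    unfold rf dir
    rw [inner_sub_right, inner_smul_right, real_inner_smul_left, h0]
    ring
  have hfly := h.fly
  choose t hpt using hfly
  have hT : ∀ k, ∃ T : E × E → ℝ, ContDiffAt ℝ 3 T (p k, u k) ∧ T (p k, u k) = t k ∧
      (∀ᶠ y in 𝓝 (p k, u k), F (k + 1) (y.1 + T y • y.2) = 0) ∧
      (∀ᶠ y in 𝓝 ((p k, u k), t k), F (k + 1) (y.1.1 + y.2 • y.1.2) = 0 → y.2 = T y.1) := by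
    intro k
    exact exists_hit (by rw [← hpt k]; exact (dF (k + 1)).smooth)
      (by rw [← hpt k]; exact (dF (k + 1)).zero)
      (by rw [← hpt k, G4_fderiv_eq]; exact (hst k).2)
  choose T hT1 hT2 hT3 hT4 using hT
  have hM := fun k => exists_mirror' (dF k)
  choose ν σ hν hσ hm hzc using hM
  -- the charts
  obtain ⟨Fs, hFs⟩ : ∃ Fs : E → ℝ, Fs = fun v : E => ⟪v, v⟫_ℝ - 1 := ⟨_, rfl⟩
  have Fsc : ContDiffAt ℝ 3 Fs (u 0) := by
    rw [hFs]
    exact ((contDiff_id.inner ℝ contDiff_id).sub contDiff_const).contDiffAt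
  have Fs0 : Fs (u 0) = 0 := by rw [hFs]; simp only [hunit 0, sub_self]
  have Fsgr : ∀ v w, ⟪gradient Fs v, w⟫_ℝ = 2 * ⟪v, w⟫_ℝ := by
    rw [hFs]; exact gradient_sphere
  have Fsg : gradient Fs (u 0) ≠ 0 := by
    intro h0
    have h1 := Fsgr (u 0) (u 0)
    rw [h0, inner_zero_left, hunit 0] at h1
    norm_num at h1
  obtain ⟨a, ha0, X, cX, X0, Xz, ⟨P, Pc, P0, Pu⟩, Xs⟩ :=
    chart' (dF 0).smooth (dF 0).zero (dF 0).grad
  obtain ⟨b, hb0, Y, cY, Y0, Yz, ⟨Q, Qc, Q0, Qu⟩, Ys⟩ := chart' Fsc Fs0 Fsg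
  -- the family
  obtain ⟨s, hs0, hs1⟩ : ∃ s : ℕ → ((ℝ ∙ a)ᗮ × (ℝ ∙ b)ᗮ) → E × E,
      (s 0 = fun z => (X z.1, Y z.2)) ∧
      ∀ k, s (k + 1) = fun z => ((s k z).1 + T k (s k z) • (s k z).2,
        rf (ν (k + 1) ((s k z).1 + T k (s k z) • (s k z).2)) (s k z).2) :=
    ⟨fun k => Nat.rec (fun z => (X z.1, Y z.2)) (fun k s z => ((s z).1 + T k (s z) • (s z).2,
        rf (ν (k + 1) ((s z).1 + T k (s z) • (s z).2)) (s z).2)) k, rfl, fun k => rfl⟩
  have cs : ∀ k, ContDiffAt ℝ 2 (s k) 0 ∧ s k 0 = (p k, u k) := by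
    intro k
    induction k with
    | zero =>
      rw [hs0]
      refine ⟨?_, by simp only [Prod.fst_zero, Prod.snd_zero, X0, Y0]⟩
      exact (ContDiffAt.comp (g := X) (f := fun z : (ℝ ∙ a)ᗮ × (ℝ ∙ b)ᗮ => z.1) 0 cX
        contDiffAt_fst).prodMk (ContDiffAt.comp (g := Y)
          (f := fun z : (ℝ ∙ a)ᗮ × (ℝ ∙ b)ᗮ => z.2) 0 cY contDiffAt_snd)
    | succ k ih =>
      obtain ⟨ih1, ih2⟩ := ih
      have hc1 : ContDiffAt ℝ 2 (fun z => (s k z).1) 0 := ih1.fst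
      have hc2 : ContDiffAt ℝ 2 (fun z => (s k z).2) 0 := ih1.snd
      have hcT : ContDiffAt ℝ 2 (fun z => T k (s k z)) 0 := by
        refine ContDiffAt.comp (g := T k) (f := s k) 0 ?_ ih1
        rw [ih2]
        exact (hT1 k).of_le (by norm_num)
      have hcx : ContDiffAt ℝ 2 (fun z => (s k z).1 + T k (s k z) • (s k z).2) 0 :=
        hc1.add (hcT.smul hc2)
      have hx0 : (s k 0).1 + T k (s k 0) • (s k 0).2 = p (k + 1) := by
        rw [ih2, hT2, hpt]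
      have hcn : ContDiffAt ℝ 2 (fun z => ν (k + 1) ((s k z).1 + T k (s k z) • (s k z).2)) 0 := by
        refine ContDiffAt.comp (g := ν (k + 1))
          (f := fun z => (s k z).1 + T k (s k z) • (s k z).2) 0 ?_ hcx
        simp only [hx0]
        exact hν (k + 1)
      rw [hs1]
      refine ⟨hcx.prodMk (G4_rf_cd hcn hc2), ?_⟩
      simp only [hx0]
      rw [(hm (k + 1)).self_of_nhds.2.1, ih2, ← (hst k).1]
  have ts : ∀ k, Tendsto (s k) (𝓝 0) (𝓝 (p k, u k)) := by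
    intro k
    have := (cs k).1.continuousAt.tendsto
    rwa [(cs k).2] at this
  have zero : ∀ k, ∀ᶠ z in 𝓝 0, F k (s k z).1 = 0 := by
    intro k
    cases k with
    | zero =>
      rw [hs0]
      exact (continuous_fst.tendsto (0 : (ℝ ∙ a)ᗮ × (ℝ ∙ b)ᗮ)).eventually Xz
    | succ k =>
      rw [hs1]
      exact (ts k).eventually (hT3 k)
  have hV : ∀ k, ∀ᶠ z in 𝓝 0, G4_V (ν k) (σ k) (F k) (fun z => (s k z).1) z := by
    intro k
    exact G4_vertex (dF k).smooth (hν k) (hσ k) (hm k) (cs k).1.fst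
      (by rw [(cs k).2]) (zero k)
  have hE : ∀ k, ∀ᶠ z in 𝓝 0, ⟪(s k z).2, (s k z).2⟫_ℝ = 1 := by
    intro k
    induction k with
    | zero =>
      rw [hs0]
      have h1 := (continuous_snd.tendsto (0 : (ℝ ∙ a)ᗮ × (ℝ ∙ b)ᗮ)).eventually Yz
      filter_upwards [h1] with z hz
      rw [hFs] at hz
      exact sub_eq_zero.1 hz
    | succ k ih =>
      filter_upwards [ih, hV (k + 1)] with z h1 h2
      have h3 := h2.nn
      rw [hs1] at h3 ⊢
      simp only at h3 ⊢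
      rw [G3_rf_inner h3, h1]
  have hde : ∀ k, ∀ᶠ z in 𝓝 0, DifferentiableAt ℝ (fun z => (s k z).2) z := by
    intro k
    filter_upwards [(cs k).1.snd.eventually (by norm_num)] with z hz
    exact hz.differentiableAt (by norm_num)
  have hcT : ∀ k, ContDiffAt ℝ 2 (fun z => T k (s k z)) 0 := by
    intro k
    refine ContDiffAt.comp (g := T k) (f := s k) 0 ?_ (cs k).1
    rw [(cs k).2]
    exact (hT1 k).of_le (by norm_num)
  have hdT : ∀ k, ∀ᶠ z in 𝓝 0, DifferentiableAt ℝ (fun z => T k (s k z)) z := by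
    intro k
    filter_upwards [(hcT k).eventually (by norm_num)] with z hz
    exact hz.differentiableAt (by norm_num)
  have hTp : ∀ k : ℕ, ∀ᶠ z : (ℝ ∙ a)ᗮ × (ℝ ∙ b)ᗮ in 𝓝 0, True := fun _ =>
    Eventually.of_forall fun _ => trivial
  have htr : ∀ k, ∀ᶠ z in 𝓝 0, ⟪ν k (s k z).1, (s k z).2⟫_ℝ ≠ 0 := by
    intro k
    have c1 : ContinuousAt (fun z => ν k (s k z).1) 0 := by
      refine ContinuousAt.comp (g := ν k) (f := fun z => (s k z).1) ?_ (cs k).1.fst.continuousAt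
      rw [(cs k).2]
      exact (hν k).continuousAt
    refine (c1.inner (cs k).1.snd.continuousAt).tendsto.eventually_ne ?_
    rw [(cs k).2, (hm k).self_of_nhds.2.1]
    unfold dir
    rw [real_inner_smul_left]
    exact mul_ne_zero (inv_ne_zero (norm_ne_zero_iff.2 (dF k).grad)) (htrF k)
  have hLip := fun k => ((cs k).1.of_le (show (1 : WithTop ℕ∞) ≤ 2 by norm_num)).exists_lipschitzOnWith
  choose K tK htK hK using hLip
  have hsj : ∀ᶠ z : (ℝ ∙ a)ᗮ × (ℝ ∙ b)ᗮ in 𝓝 0,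
      ((∀ W, ⟪gradient (F 0) (X z.1), W⟫_ℝ = 0 → ∃ ζ, fderiv ℝ X z.1 ζ = W) ∧
        ContDiffAt ℝ 2 X z.1) ∧
      ((∀ W, ⟪gradient Fs (Y z.2), W⟫_ℝ = 0 → ∃ ζ, fderiv ℝ Y z.2 ζ = W) ∧
        ContDiffAt ℝ 2 Y z.2) :=
    ((continuous_fst.tendsto (0 : (ℝ ∙ a)ᗮ × (ℝ ∙ b)ᗮ)).eventually
      (Xs.and (cX.eventually (by norm_num)))).and
    ((continuous_snd.tendsto (0 : (ℝ ∙ a)ᗮ × (ℝ ∙ b)ᗮ)).eventually
      (Ys.and (cY.eventually (by norm_num))))
  -- linear charts at all vertices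
  have hchl := fun k => chart_lin (dF k).smooth (dF k).zero (dF k).grad
  choose aa haa XX cXX XX0 XXz PP PPl PPu using hchl
  have hR : ∀ k, ∀ᶠ z in 𝓝 0, (s k z).1 = XX k (PP k ((s k z).1 - p k)) ∧
      DifferentiableAt ℝ (XX k) (PP k ((s k z).1 - p k)) ∧
      ContDiffAt ℝ 1 (fun z => (s k z).1) z := by
    intro k
    have t1 : Tendsto (fun z => (s k z).1) (𝓝 0) (𝓝 (p k)) :=
      (continuous_fst.tendsto (p k, u k)).comp (ts k)
    have t2 : Tendsto (fun z => PP k ((s k z).1 - p k)) (𝓝 0) (𝓝 0) := by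
      have h2 := ((PP k).continuous.tendsto (p k - p k)).comp (t1.sub_const (p k))
      rwa [sub_self, map_zero] at h2
    filter_upwards [t1.eventually (PPu k), zero k,
      t2.eventually ((cXX k).eventually (by norm_num)),
      ((cs k).1.fst).eventually (by norm_num)] with z h1 h2 h3 h4
    exact ⟨h1 h2, h3.differentiableAt (by norm_num), h4.of_le (by norm_num)⟩
  have hall : ∀ᶠ z in 𝓝 0, ∀ k ∈ Set.Iic n,
      G4_V (ν k) (σ k) (F k) (fun z => (s k z).1) z ∧ ⟪(s k z).2, (s k z).2⟫_ℝ = 1 ∧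
      DifferentiableAt ℝ (fun z => (s k z).2) z ∧ DifferentiableAt ℝ (fun z => T k (s k z)) z ∧
      True ∧ ⟪ν k (s k z).1, (s k z).2⟫_ℝ ≠ 0 ∧ z ∈ tK k ∧
      (s k z).1 = XX k (PP k ((s k z).1 - p k)) ∧
      DifferentiableAt ℝ (XX k) (PP k ((s k z).1 - p k)) ∧
      ContDiffAt ℝ 1 (fun z => (s k z).1) z := by
    rw [Filter.eventually_all_finite (Set.finite_Iic n)]
    intro k _
    exact (hV k).and ((hE k).and ((hde k).and ((hdT k).and ((hTp k).and ((htr k).and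
      ((show ∀ᶠ z in 𝓝 0, z ∈ tK k from htK k).and (hR k)))))))
  obtain ⟨U, hU, hUo, hU0⟩ := eventually_nhds_iff.1 (hall.and hsj)
  have hUk : ∀ k ≤ n, ∀ z ∈ U, G4_V (ν k) (σ k) (F k) (fun z => (s k z).1) z ∧
      ⟪(s k z).2, (s k z).2⟫_ℝ = 1 ∧
      DifferentiableAt ℝ (fun z => (s k z).2) z ∧ DifferentiableAt ℝ (fun z => T k (s k z)) z ∧
      True ∧ ⟪ν k (s k z).1, (s k z).2⟫_ℝ ≠ 0 ∧ z ∈ tK k ∧
      (s k z).1 = XX k (PP k ((s k z).1 - p k)) ∧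
      DifferentiableAt ℝ (XX k) (PP k ((s k z).1 - p k)) ∧
      ContDiffAt ℝ 1 (fun z => (s k z).1) z :=
    fun k hk z hz => (hU z hz).1 k hk
  obtain ⟨C, hCU, hCN, hCg, hCx, hCe, hCn, hCS⟩ : ∃ C : Chn E ((ℝ ∙ a)ᗮ × (ℝ ∙ b)ᗮ), C.U = U ∧
      C.N = n ∧ C.g = AffineIsometryEquiv.refl ℝ E ∧ (C.x = fun k z => (s k z).1) ∧ (C.e = fun k z => (s k z).2) ∧
      (C.n = fun k z => ν k (s k z).1) ∧ (C.S = fun k z => σ k (s k z).1) := by
    refine ⟨{
      U := U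
      hU := hUo
      N := n
      hN := hpos
      g := AffineIsometryEquiv.refl ℝ E
      x := fun k z => (s k z).1
      e := fun k z => (s k z).2
      n := fun k z => ν k (s k z).1
      L := fun k z => T k (s k z)
      S := fun k z => σ k (s k z).1
      dx := fun k hk z hz => (hUk k hk z hz).1.dx
      de := fun k hk z hz => (hUk k hk z hz).2.2.1
      dn := fun k hk z hz => (hUk k hk z hz).1.dn
      dL := fun k hk z hz => (hUk k hk.le z hz).2.2.2.1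
      dS := fun k hk z hz => (hUk k hk.le z hz).1.dS
      ee := fun k hk z hz => (hUk k hk.le z hz).2.1
      nn := fun k hk z hz => (hUk k hk.le z hz).1.nn
      step := fun k _ z => by rw [hs1]
      refl := fun k _ z => by rw [hs1]
      tr := fun k hk z hz => (hUk k hk.le z hz).2.2.2.2.2.1
      sym := fun k hk z hz => (hUk k hk.le z hz).1.sym
      Sn := fun k hk z hz => (hUk k hk.le z hz).1.Sn
      tan := fun k hk z hz => (hUk k hk.le z hz).1.tan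
      njac := fun k hk z hz => (hUk k hk.le z hz).1.njac
      Sjac := fun k hk z hz => (hUk k hk.le z hz).1.Sjac
      surj := ?_ }, rfl, rfl, rfl, rfl, rfl, rfl, rfl⟩
    intro z hz W δ hW hδ
    obtain ⟨⟨s1, c1⟩, ⟨s2, c2⟩⟩ := (hU z hz).2
    have hV0 := (hUk 0 (Nat.zero_le _) z hz).1
    have hn0 : ν 0 (s 0 z).1 = dir (gradient (F 0) (s 0 z).1) := hV0.nu
    have hg0 : gradient (F 0) (s 0 z).1 ≠ 0 := hV0.g0
    change ⟪ν 0 (s 0 z).1, W⟫_ℝ = 0 at hW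
    change ⟪(s 0 z).2, δ⟫_ℝ = 0 at hδ
    rw [hn0] at hW
    unfold dir at hW
    rw [real_inner_smul_left] at hW
    have hW' := (mul_eq_zero.1 hW).resolve_left (inv_ne_zero (norm_ne_zero_iff.2 hg0))
    rw [hs0] at hW' hδ
    simp only at hW' hδ
    obtain ⟨ζ1, hζ1⟩ := s1 W hW'
    obtain ⟨ζ2, hζ2⟩ := s2 δ (by rw [Fsgr, hδ, mul_zero])
    refine ⟨(ζ1, ζ2), ?_, ?_⟩
    · rw [hs0]
      have h1 : HasFDerivAt (fun z : (ℝ ∙ a)ᗮ × (ℝ ∙ b)ᗮ => X z.1)
          ((fderiv ℝ X z.1).comp (ContinuousLinearMap.fst ℝ _ _)) z :=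
        (c1.differentiableAt (by norm_num)).hasFDerivAt.comp z hasFDerivAt_fst
      simp only
      rw [h1.fderiv]
      exact hζ1
    · rw [hs0]
      have h1 : HasFDerivAt (fun z : (ℝ ∙ a)ᗮ × (ℝ ∙ b)ᗮ => Y z.2)
          ((fderiv ℝ Y z.2).comp (ContinuousLinearMap.snd ℝ _ _)) z :=
        (c2.differentiableAt (by norm_num)).hasFDerivAt.comp z hasFDerivAt_snd
      simp only
      rw [h1.fderiv]
      exact hζ2
  refine ⟨a, b, C, ha0, hb0, hCN, hCg, ⟨⟨X, ?_⟩, ⟨fun y => ν 0 (X y), ?_⟩, ⟨Y, ?_⟩⟩, ?_, ?_,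
    ?_, ?_⟩
  · rw [hCx]
    simp only [hs0]
  · rw [hCn]
    simp only [hs0]
  · rw [hCe]
    simp only [hs0]
  · intro z hz k hk
    rw [hCx]
    rw [hCU] at hz
    exact (hUk k hk z hz).2.2.2.2.2.2.2.2.2
  · intro k hk
    refine ⟨aa k, PP k, haa k, ?_, ?_⟩
    · intro z hz z' hz' hT
      rw [hCU] at hz hz'
      rw [hCx] at hT ⊢
      simp only at hT ⊢
      have h1 := hT
      have h2 := (hUk k hk z hz).2.2.2.2.2.2.2.1
      have h3 := (hUk k hk z' hz').2.2.2.2.2.2.2.1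
      rw [h2, h3, map_sub, map_sub, h1]
    · intro z hz ζ hT
      rw [hCU] at hz
      rw [hCx] at hT ⊢
      simp only at hT ⊢
      have h1 : PP k (fderiv ℝ (fun z => (s k z).1) z ζ) = 0 := hT
      have hd := ((hUk k hk z hz).2.2.2.2.2.2.2.2.2).differentiableAt (by norm_num)
      have h2 : (fun z => (s k z).1) =ᶠ[𝓝 z] fun z => XX k (PP k ((s k z).1 - p k)) := by
        filter_upwards [hUo.mem_nhds hz] with y hy
        exact (hUk k hk y hy).2.2.2.2.2.2.2.1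
      have h3 : HasFDerivAt (fun z => PP k ((s k z).1 - p k))
          ((PP k).comp (fderiv ℝ (fun z => (s k z).1) z)) z :=
        (PP k).hasFDerivAt.comp z (hd.hasFDerivAt.sub_const (p k))
      have h4 : HasFDerivAt (fun z => XX k (PP k ((s k z).1 - p k)))
          ((fderiv ℝ (XX k) (PP k ((s k z).1 - p k))).comp
            ((PP k).comp (fderiv ℝ (fun z => (s k z).1) z))) z :=
        (hUk k hk z hz).2.2.2.2.2.2.2.2.1.hasFDerivAt.comp z h3
      rw [h2.fderiv_eq, h4.fderiv, ContinuousLinearMap.comp_apply, ContinuousLinearMap.comp_apply,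
        h1, map_zero]
  · intro m hm'
    refine ⟨K m, ?_⟩
    rw [hCx, hCe, hCU]
    exact (hK m).mono fun z hz => (hUk m hm' z hz).2.2.2.2.2.2.1
  -- nearby trajectories
  have T1 : ∀ k, Tendsto (fun w : (ℕ → E) × (ℕ → E) => w.1 k) (𝓝 (p, u)) (𝓝 (p k)) := by
    intro k
    have : Continuous (fun w : (ℕ → E) × (ℕ → E) => w.1 k) :=
      (continuous_apply k).comp continuous_fst
    exact this.tendsto (p, u)
  have T2 : ∀ k, Tendsto (fun w : (ℕ → E) × (ℕ → E) => w.2 k) (𝓝 (p, u)) (𝓝 (u k)) := by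
    intro k
    have : Continuous (fun w : (ℕ → E) × (ℕ → E) => w.2 k) :=
      (continuous_apply k).comp continuous_snd
    exact this.tendsto (p, u)
  have T3 : ∀ k, Tendsto (fun w : (ℕ → E) × (ℕ → E) =>
      ((w.1 k, w.2 k), ⟪w.1 (k + 1) - w.1 k, w.2 k⟫_ℝ))
      (𝓝 (p, u)) (𝓝 ((p k, u k), t k)) := by
    intro k
    have h1 : Continuous (fun w : (ℕ → E) × (ℕ → E) =>
        ((w.1 k, w.2 k), ⟪w.1 (k + 1) - w.1 k, w.2 k⟫_ℝ)) := by
      have c1 : ∀ k, Continuous (fun w : (ℕ → E) × (ℕ → E) => w.1 k) := fun k =>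
        (continuous_apply k).comp continuous_fst
      have c2 : ∀ k, Continuous (fun w : (ℕ → E) × (ℕ → E) => w.2 k) := fun k =>
        (continuous_apply k).comp continuous_snd
      exact ((c1 k).prodMk (c2 k)).prodMk (((c1 (k + 1)).sub (c1 k)).inner (c2 k))
    have h2 := h1.tendsto (p, u)
    have h3 : ⟪p (k + 1) - p k, u k⟫_ℝ = t k := by
      rw [hpt k, add_sub_cancel_left, real_inner_smul_left, hunit k, mul_one]
    simp only [h3] at h2
    exact h2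
  obtain ⟨ζ, hζ⟩ : ∃ ζ : (ℕ → E) × (ℕ → E) → (ℝ ∙ a)ᗮ × (ℝ ∙ b)ᗮ, ζ = fun w =>
    (P (w.1 0 - p 0), Q (w.2 0 - u 0)) := ⟨_, rfl⟩
  have Tζ : Tendsto ζ (𝓝 (p, u)) (𝓝 0) := by
    have h1 : Tendsto (fun w : (ℕ → E) × (ℕ → E) => P (w.1 0 - p 0)) (𝓝 (p, u)) (𝓝 0) := by
      have h2 := (Pc.tendsto (p 0 - p 0)).comp ((T1 0).sub_const (p 0))
      rwa [sub_self, P0] at h2
    have h2 : Tendsto (fun w : (ℕ → E) × (ℕ → E) => Q (w.2 0 - u 0)) (𝓝 (p, u)) (𝓝 0) := by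
      have h2 := (Qc.tendsto (u 0 - u 0)).comp ((T2 0).sub_const (u 0))
      rwa [sub_self, Q0] at h2
    rw [hζ]
    exact h1.prodMk_nhds h2
  have hev : ∀ᶠ w : (ℕ → E) × (ℕ → E) in 𝓝 (p, u), ∀ k ∈ Set.Iic n,
      (F (k + 1) (w.1 k + ⟪w.1 (k + 1) - w.1 k, w.2 k⟫_ℝ • w.2 k) = 0 →
        ⟪w.1 (k + 1) - w.1 k, w.2 k⟫_ℝ = T k (w.1 k, w.2 k)) ∧
      (∀ F' : E → ℝ, LocalDef Ω (w.1 k) F' → LocalDef Ω (w.1 k) (F k)) ∧
      ν k (w.1 k) = dir (gradient (F k) (w.1 k)) ∧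
      (LocalDef Ω (w.1 k) (F k) → ZeroCurv Ω (w.1 k) → σ k (w.1 k) = 0) := by
    rw [Filter.eventually_all_finite (Set.finite_Iic n)]
    intro k _
    exact ((T3 k).eventually (hT4 k)).and (((T1 k).eventually (localDef_near (dF k))).and
      (((T1 k).eventually ((hm k).mono fun x hx => hx.2.1)).and ((T1 k).eventually (hzc k))))
  filter_upwards [hev, Tζ.eventually (hUo.mem_nhds hU0), (T1 0).eventually Pu,
    (T2 0).eventually Qu] with w hw wU wP wQ hor hclw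
  have hunit' := hor.units
  have hdf : ∀ k ≤ n, LocalDef Ω (w.1 k) (F k) := fun k hk => by
    obtain ⟨F', hF', -⟩ := hor.reg k
    exact (hw k hk).2.1 _ hF'
  have hs : ∀ k ≤ n, s k (ζ w) = (w.1 k, w.2 k) := by
    intro k
    induction k with
    | zero =>
      intro _
      rw [hs0, hζ]
      simp only
      rw [← wP (hdf 0 (Nat.zero_le _)).zero, ← wQ (by rw [hFs]; simp only [hunit' 0, sub_self])]
    | succ k ih =>
      intro hk
      rw [hs1]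
      simp only
      rw [ih (by omega)]
      simp only
      obtain ⟨τ, e3⟩ := hor.fly k
      have e1 := hor.refl k _ (hdf (k + 1) hk)
      have e4 : ⟪w.1 (k + 1) - w.1 k, w.2 k⟫_ℝ = τ := by
        rw [e3, add_sub_cancel_left, real_inner_smul_left, hunit' k, mul_one]
      have e5 := (hw k (by simp only [Set.mem_Iic]; omega)).1 (by
        rw [e4, ← e3]; exact (hdf (k + 1) hk).zero)
      rw [e4] at e5
      rw [← e5, ← e3, (hw (k + 1) hk).2.2.1, ← e1]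
  refine ⟨ζ w, by rw [hCU]; exact wU, ?_, ?_, ?_⟩
  · intro k hk
    rw [hCx, hCe]
    simp only
    rw [hs k hk]
    exact ⟨rfl, rfl⟩
  · rw [hCn, hCN]
    simp only
    rw [hs n le_rfl, hs 0 (Nat.zero_le _)]
    simp only
    rw [(hw n (by simp)).2.2.1, (hw 0 (by simp)).2.2.1, hFn, hclw]
  · intro k hk hz
    rw [hCS]
    simp only
    rw [hs k hk.le]
    exact (hw k hk.le).2.2.2 (hdf k hk.le) hz

theorem chart : S2_CHART := by
  intro m Ω n p u hn h hcl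
  obtain ⟨a, b, C, ha, hb, hN, hgC, ⟨h1, h2, h3⟩, h4, h5, h6, h7⟩ := chart_gen hn h hcl
  exact ⟨a, b, C, ha, hb, hN, hgC, ⟨h1, h2, h3⟩, h4, h5, h6, h7⟩

end Pool.Agent.Y294.IV.D
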