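import Pool.Agent.Y294.IV.D.LocA
import Pool.Agent.Y294.TB2.Alg
import Pool.Agent.Y294.TB.Fin
import Pool.Agent.TH746.IR.Final

/-!
From the charts to the rays of invisibility, all dimensions. Adapted from
`Pool/Agent/Y568/TB2/Glob.lean` (helper568), `Pool/Agent/Y294/TB2/Alg.lean` and
`Pool/Agent/TH746/IR/Duo2.lean`.
-/

set_option autoImplicit false

open MeasureTheory Set Filter Topology
open scoped InnerProductSpace
open Pool.Agent.H721R2.Quart Pool.Agent.H721R2.Ivrii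

namespace Pool.Agent.Y294.IV.D

open Pool.Agent.TH746 Pool.Agent.TH746.AL Pool.Agent.TH746.UM Pool.Agent.TH746.IR MvPolynomial
open H450Al H450Sp Pool.Agent.Y294.TB
open Pool.Agent.Y294.TB2 (AnyAlg NC2 S2_CORE2)

/-- The oriented lines (given by their direction and by their point nearest to the origin) which
are rays of invisibility of the body `B`, with any number `n` of reflections, at the points
`A 0, ..., A (n - 1)`, such that there are `a ≤ b < n` with the following properties: all the points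
`A k`, `k ≠ a`, `k ≠ b`, are noncircular algebraic boundary points of `B`; and `A a` or `A b` is an
algebraic boundary point, or all the points `A k` with `a < k < b` are points of zero curvature. -/
def InvPair {d : ℕ} (B : Set (EuclideanSpace ℝ (Fin d))) :
    Set (EuclideanSpace ℝ (Fin d) × EuclideanSpace ℝ (Fin d)) :=
  {z | ∃ (n : ℕ) (A u : ℕ → EuclideanSpace ℝ (Fin d)), InvRay B n z.1 z.2 A u ∧
    ∃ a b, a ≤ b ∧ b < n ∧ (∀ k < n, k ≠ a → k ≠ b → AlgAt B (A k)) ∧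
      (AnyAlg B (A a) ∨ AnyAlg B (A b) ∨ ∀ k, a < k → k < b → ZeroCurv Bᶜ (A k))}

theorem anyAlg_compl {d : ℕ} {B : Set (EuclideanSpace ℝ (Fin d))} {q : EuclideanSpace ℝ (Fin d)}
    (h : AnyAlg B q) : AnyAlg Bᶜ q := by
  unfold AnyAlg at *
  rw [frontier_compl]
  exact h

variable {m : ℕ}

theorem mem_frV {Ω : Set (EE m)} {p u : ℕ → EE m} (h : VOrb Ω p u) (i : ℕ) :
    p i ∈ frontier Ω := by
  obtain ⟨F, hF, -⟩ := h.reg i
  exact ldef_frontier hF

/-- the closed chains with two vertices which may be arbitrary boundary points, the vertices in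
between being points of zero curvature -/
def VT (Ω : Set (EE m)) (n j : ℕ) : Set ((ℕ → EE m) × (ℕ → EE m)) :=
  {w | VOrb Ω w.1 w.2 ∧ w.1 n = w.1 0 ∧ w.2 n = w.2 0 ∧
    (∀ k, 1 ≤ k → k < n → k ≠ j → AlgAt Ω (w.1 k)) ∧
    (∀ k, 1 ≤ k → k < j → ZeroCurv Ω (w.1 k)) ∧
    (∀ k < j, 0 < ⟪w.1 (k + 1) - w.1 k, w.2 k⟫_ℝ) ∧
    ∑ k ∈ Finset.range n, ⟪w.1 (k + 1) - w.1 k, w.2 k⟫_ℝ ≠ 0}

/-- the closed chains with two vertices which are not at noncircular algebraic boundary points, the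
second one being at an algebraic boundary point -/
def VA (Ω : Set (EE m)) (n j : ℕ) : Set ((ℕ → EE m) × (ℕ → EE m)) :=
  {w | VOrb Ω w.1 w.2 ∧ w.1 n = w.1 0 ∧ w.2 n = w.2 0 ∧
    (∀ k, 1 ≤ k → k < n → k ≠ j → AlgAt Ω (w.1 k)) ∧ AnyAlg Ω (w.1 j) ∧
    ∑ k ∈ Finset.range n, ⟪w.1 (k + 1) - w.1 k, w.2 k⟫_ℝ ≠ 0}

theorem vt_null (h1 : S2_CHART) (h2 : S2_LOCAL) {Ω : Set (EE m)} {n j l : ℕ} (hl : l ≤ n)
    (hj : 1 ≤ j) (hjn : j < n) :
    μH[((2 * m + 2 : ℕ) : ℝ)]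
      ((fun w : (ℕ → EE m) × (ℕ → EE m) => (w.1 l, w.2 l)) '' VT Ω n j) = 0 := by
  classical
  obtain ⟨k, hkc, k1, k2, k3⟩ :=
    Pool.Agent.Y568.TB2.exists_field' Ω (AffineIsometryEquiv.refl ℝ (EE m))
  apply null_of_locally_null
  rintro ⟨p, u⟩ ⟨hor, hpn, hun, hal, hzc0, hs1, hs2⟩
  obtain ⟨a, b, C, ha, hb, hCN, hCg, hsp, hCD, hT, hL, hev⟩ := h1 m Ω n p u (by omega) hor hpn
  have hfa : Module.finrank ℝ ((ℝ ∙ a)ᗮ : Submodule ℝ (EE m)) = m + 1 := by
    have h1 := Submodule.finrank_add_finrank_orthogonal (ℝ ∙ a)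
    rw [finrank_span_singleton ha, finrank_euclideanSpace_fin] at h1
    omega
  have hfb : Module.finrank ℝ ((ℝ ∙ b)ᗮ : Submodule ℝ (EE m)) = m + 1 := by
    have h1 := Submodule.finrank_add_finrank_orthogonal (ℝ ∙ b)
    rw [finrank_span_singleton hb, finrank_euclideanSpace_fin] at h1
    omega
  have hfr : Module.finrank ℝ ((ℝ ∙ a)ᗮ × (ℝ ∙ b)ᗮ) = 2 * m + 2 := by
    rw [Module.finrank_prod, hfa, hfb]
    ring
  obtain ⟨c, T, hc, hT1, hT2⟩ := hT j hjn.le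
  have hfc : Module.finrank ℝ ((ℝ ∙ c)ᗮ : Submodule ℝ (EE m)) = m + 1 := by
    have h1 := Submodule.finrank_add_finrank_orthogonal (ℝ ∙ c)
    rw [finrank_span_singleton hc, finrank_euclideanSpace_fin] at h1
    omega
  have hbox : ∀ i, ∃ (B : Set (EE m)) (P : MvPolynomial (Fin (m + 2)) k), 1 ≤ i → i < n → i ≠ j →
      IsOpen B ∧ p i ∈ B ∧ NC2 (map (algebraMap k ℝ) P) ∧
        ∀ y ∈ B, y ∈ frontier Ω → aeval y.ofLp P = 0 := by
    intro i
    by_cases hi : 1 ≤ i ∧ i < n ∧ i ≠ j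
    · obtain ⟨B, P, hB⟩ := k3 (p i) (hal i hi.1 hi.2.1 hi.2.2)
      exact ⟨B, P, fun _ _ _ => hB⟩
    · exact ⟨∅, 0, fun a b c => absurd ⟨a, b, c⟩ hi⟩
  choose B P hBP using hbox
  obtain ⟨A, hA⟩ : ∃ A, A = {z : (ℝ ∙ a)ᗮ × (ℝ ∙ b)ᗮ | z ∈ C.U ∧
      C.x C.N z = C.g (C.x 0 z) ∧ C.e C.N z = C.G (C.e 0 z) ∧
      C.n C.N z = C.G (C.n 0 z) ∧
      (∀ i, 1 ≤ i → i < C.N → i ≠ j → aeval (C.x i z).ofLp (P i) = 0) ∧
      (∀ i, 1 ≤ i → i < j → C.S i z = 0) ∧ (∀ i < j, 0 < C.L i z) ∧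
      ∑ i ∈ Finset.range C.N, C.L i z ≠ 0} := ⟨_, rfl⟩
  have h0 := h2 m ((ℝ ∙ a)ᗮ : Submodule ℝ (EE m)) ((ℝ ∙ b)ᗮ : Submodule ℝ (EE m))
    ((ℝ ∙ c)ᗮ : Submodule ℝ (EE m)) (μH[(Module.finrank ℝ ((ℝ ∙ a)ᗮ × (ℝ ∙ b)ᗮ) : ℝ)]) C k hkc j P
    hfb hfc hsp
    (fun z hz i hi => hCD z hz i (by rw [← hCN]; exact hi)) ⟨T, hT1, hT2⟩ hj
    (by rw [hCN]; exact hjn) (by rw [hCg]; exact k1) (by rw [hCg]; exact k2)
    (fun i hi1 hi hij => (hBP i hi1 (by rw [← hCN]; exact hi) hij).2.2.1)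
  rw [← hA, hfr] at h0
  obtain ⟨K, hK⟩ := hL l hl
  refine ⟨(fun z => (C.x l z, C.e l z)) '' A, ?_, ?_⟩
  · have hK' : LipschitzOnWith K (fun z => (C.x l z, C.e l z)) A :=
      hK.mono fun z hz => by rw [hA] at hz; exact hz.1
    have h3 := hK'.hausdorffMeasure_image_le (d := ((2 * m + 2 : ℕ) : ℝ)) (Nat.cast_nonneg _)
    rw [h0, mul_zero] at h3
    exact nonpos_iff_eq_zero.mp h3
  · have hnear : ∀ᶠ w : (ℕ → EE m) × (ℕ → EE m) in 𝓝 (p, u),
        ∀ i ∈ {i : ℕ | i < n}, 1 ≤ i → i ≠ j → w.1 i ∈ B i := by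
      rw [Filter.eventually_all_finite (Set.finite_lt_nat n)]
      intro i hi
      by_cases hc : 1 ≤ i ∧ i ≠ j
      · obtain ⟨hB, hpB, -, -⟩ := hBP i hc.1 hi hc.2
        have hcont : Continuous fun w : (ℕ → EE m) × (ℕ → EE m) => w.1 i :=
          (continuous_apply i).comp continuous_fst
        filter_upwards [hcont.continuousAt.eventually_mem (hB.mem_nhds hpB)] with w hw _ _
        exact hw
      · exact Eventually.of_forall fun w a b => absurd ⟨a, b⟩ hc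
    filter_upwards [hev, hnear] with w hw hwB hor'
    obtain ⟨z, hzU, hz, hzn, hzc⟩ := hw hor'.1 hor'.2.1
    obtain ⟨hv1, hv2, hv3, hv4, hv7, hv5, hv6⟩ := hor'
    refine ⟨z, ?_, ?_⟩
    · rw [hA]
      have hx0 := (hz 0 (Nat.zero_le _)).1
      have he0 := (hz 0 (Nat.zero_le _)).2
      have hxn := (hz n le_rfl).1
      have hen := (hz n le_rfl).2
      have hLi : ∀ i < n, C.L i z = ⟪w.1 (i + 1) - w.1 i, w.2 i⟫_ℝ := by
        intro i hi
        have hi' : i < C.N := by rw [hCN]; exact hi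
        rw [← (hz (i + 1) hi).1, ← (hz i hi.le).1, ← (hz i hi.le).2, C.step i hi' z,
          add_sub_cancel_left, real_inner_smul_left, C.ee i hi' z hzU, mul_one]
      refine ⟨hzU, ?_, ?_, ?_, ?_, fun i hi1 hij => hzc i (by omega) (hv7 i hi1 hij), ?_, ?_⟩
      · rw [hCN, hxn, hx0, hCg]
        exact hv2
      · rw [Chn.G_apply, hCN, hen, he0, hCg]
        exact hv3
      · rw [Chn.G_apply, hCg]
        exact hzn
      · intro i hi1 hi hij
        rw [hCN] at hi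
        have hxi := (hz i hi.le).1
        rw [hxi]
        exact (hBP i hi1 hi hij).2.2.2 (w.1 i) (hwB i hi hi1 hij) (mem_frV hv1 i)
      · intro i hi
        rw [hLi i (by omega)]
        exact hv5 i hi
      · rw [hCN, Finset.sum_congr rfl fun i hi => hLi i (Finset.mem_range.1 hi)]
        exact hv6
    · have h3 := hz l hl
      exact Prod.ext h3.1 h3.2

theorem va_null (h1 : S2_CHART) (hGOOD : S_GOOD) (hp1 : S2_PT1) (hp2 : S2_PT2) (hp3 : S2_PT3)
    (hC2 : S2_CORE2) {Ω : Set (EE m)} {n j l : ℕ} (hl : l ≤ n) (hj : 1 ≤ j) (hjn : j < n) :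
    μH[((2 * m + 2 : ℕ) : ℝ)]
      ((fun w : (ℕ → EE m) × (ℕ → EE m) => (w.1 l, w.2 l)) '' VA Ω n j) = 0 := by
  classical
  obtain ⟨k, hkc, k1, k2, k3, k4⟩ :=
    Pool.Agent.Y294.TB2.exists_fieldA Ω (AffineIsometryEquiv.refl ℝ (EE m))
  apply null_of_locally_null
  rintro ⟨p, u⟩ ⟨hor, hpn, hun, hal, hany, hs2⟩
  obtain ⟨a, b, C, ha, hb, hCN, hCg, hsp, hCD, hT, hL, hev⟩ := h1 m Ω n p u (by omega) hor hpn
  have hfa : Module.finrank ℝ ((ℝ ∙ a)ᗮ : Submodule ℝ (EE m)) = m + 1 := by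
    have h1 := Submodule.finrank_add_finrank_orthogonal (ℝ ∙ a)
    rw [finrank_span_singleton ha, finrank_euclideanSpace_fin] at h1
    omega
  have hfb : Module.finrank ℝ ((ℝ ∙ b)ᗮ : Submodule ℝ (EE m)) = m + 1 := by
    have h1 := Submodule.finrank_add_finrank_orthogonal (ℝ ∙ b)
    rw [finrank_span_singleton hb, finrank_euclideanSpace_fin] at h1
    omega
  have hfr : Module.finrank ℝ ((ℝ ∙ a)ᗮ × (ℝ ∙ b)ᗮ) = 2 * m + 2 := by
    rw [Module.finrank_prod, hfa, hfb]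
    ring
  have hbox : ∀ i, ∃ (B : Set (EE m)) (P : MvPolynomial (Fin (m + 2)) k), 1 ≤ i → i < n →
      IsOpen B ∧ p i ∈ B ∧ (i ≠ j → NC2 (map (algebraMap k ℝ) P)) ∧ (i = j → P ≠ 0) ∧
        ∀ y ∈ B, y ∈ frontier Ω → aeval y.ofLp P = 0 := by
    intro i
    by_cases hi : 1 ≤ i ∧ i < n
    · by_cases hij : i = j
      · obtain ⟨B, P, b1, b2, b3, b4⟩ := k4 (p j) hany
        rw [hij]
        exact ⟨B, P, fun _ _ => ⟨b1, b2, fun h => absurd rfl h, fun _ => b3, b4⟩⟩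
      · obtain ⟨B, P, b1, b2, b3, b4⟩ := k3 (p i) (hal i hi.1 hi.2 hij)
        exact ⟨B, P, fun _ _ => ⟨b1, b2, fun _ => b3, fun h => absurd h hij, b4⟩⟩
    · exact ⟨∅, 0, fun a b => absurd ⟨a, b⟩ hi⟩
  choose B P hBP using hbox
  obtain ⟨A, hA⟩ : ∃ A, A = {z : (ℝ ∙ a)ᗮ × (ℝ ∙ b)ᗮ | z ∈ C.U ∧
      C.x C.N z = C.g (C.x 0 z) ∧ C.e C.N z = C.G (C.e 0 z) ∧
      C.n C.N z = C.G (C.n 0 z) ∧ ∑ i ∈ Finset.range C.N, C.L i z ≠ 0 ∧
      ∀ i, 1 ≤ i → i < C.N → aeval (C.x i z).ofLp (P i) = 0} := ⟨_, rfl⟩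
  have h0 := localA hGOOD hp1 hp2 hp3 hC2
    (μH[(Module.finrank ℝ ((ℝ ∙ a)ᗮ × (ℝ ∙ b)ᗮ) : ℝ)]) C k hkc j P hsp hj
    (by rw [hCN]; exact hjn) (by rw [hCg]; exact k1) (by rw [hCg]; exact k2)
    (fun i hi1 hi hij => (hBP i hi1 (by rw [← hCN]; exact hi)).2.2.1 hij)
    ((hBP j hj hjn).2.2.2.1 rfl)
  rw [← hA, hfr] at h0
  obtain ⟨K, hK⟩ := hL l hl
  refine ⟨(fun z => (C.x l z, C.e l z)) '' A, ?_, ?_⟩
  · have hK' : LipschitzOnWith K (fun z => (C.x l z, C.e l z)) A :=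
      hK.mono fun z hz => by rw [hA] at hz; exact hz.1
    have h3 := hK'.hausdorffMeasure_image_le (d := ((2 * m + 2 : ℕ) : ℝ)) (Nat.cast_nonneg _)
    rw [h0, mul_zero] at h3
    exact nonpos_iff_eq_zero.mp h3
  · have hnear : ∀ᶠ w : (ℕ → EE m) × (ℕ → EE m) in 𝓝 (p, u),
        ∀ i ∈ {i : ℕ | i < n}, 1 ≤ i → w.1 i ∈ B i := by
      rw [Filter.eventually_all_finite (Set.finite_lt_nat n)]
      intro i hi
      by_cases hc : 1 ≤ i
      · obtain ⟨hB, hpB, -, -, -⟩ := hBP i hc hi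
        have hcont : Continuous fun w : (ℕ → EE m) × (ℕ → EE m) => w.1 i :=
          (continuous_apply i).comp continuous_fst
        filter_upwards [hcont.continuousAt.eventually_mem (hB.mem_nhds hpB)] with w hw _
        exact hw
      · exact Eventually.of_forall fun w a => absurd a hc
    filter_upwards [hev, hnear] with w hw hwB hor'
    obtain ⟨z, hzU, hz, hzn, hzc⟩ := hw hor'.1 hor'.2.1
    obtain ⟨hv1, hv2, hv3, hv4, hv5, hv6⟩ := hor'
    refine ⟨z, ?_, ?_⟩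
    · rw [hA]
      have hx0 := (hz 0 (Nat.zero_le _)).1
      have he0 := (hz 0 (Nat.zero_le _)).2
      have hxn := (hz n le_rfl).1
      have hen := (hz n le_rfl).2
      have hLi : ∀ i < n, C.L i z = ⟪w.1 (i + 1) - w.1 i, w.2 i⟫_ℝ := by
        intro i hi
        have hi' : i < C.N := by rw [hCN]; exact hi
        rw [← (hz (i + 1) hi).1, ← (hz i hi.le).1, ← (hz i hi.le).2, C.step i hi' z,
          add_sub_cancel_left, real_inner_smul_left, C.ee i hi' z hzU, mul_one]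
      refine ⟨hzU, ?_, ?_, ?_, ?_, ?_⟩
      · rw [hCN, hxn, hx0, hCg]
        exact hv2
      · rw [Chn.G_apply, hCN, hen, he0, hCg]
        exact hv3
      · rw [Chn.G_apply, hCg]
        exact hzn
      · rw [hCN, Finset.sum_congr rfl fun i hi => hLi i (Finset.mem_range.1 hi)]
        exact hv6
      · intro i hi1 hi
        rw [hCN] at hi
        have hxi := (hz i hi.le).1
        rw [hxi]
        exact (hBP i hi1 hi).2.2.2.2 (w.1 i) (hwB i hi hi1) (mem_frV hv1 i)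
    · have h3 := hz l hl
      exact Prod.ext h3.1 h3.2

/-- one rotation of the closed chain of a ray of invisibility -/
theorem rot {d : ℕ} {B : Set (EuclideanSpace ℝ (Fin d))} {n : ℕ} {y v : EuclideanSpace ℝ (Fin d)}
    {A u : ℕ → EuclideanSpace ℝ (Fin d)} (h : InvRay B n y v A u) {j : ℕ} (hj : j < n) :
    ∃ p w : ℕ → EuclideanSpace ℝ (Fin d), VOrb Bᶜ p w ∧ p n = p 0 ∧ w n = w 0 ∧
      ∑ k ∈ Finset.range n, ⟪p (k + 1) - p k, w k⟫_ℝ ≠ 0 ∧
      (∀ i < n, p i = A (if i + j < n then i + j else i + j - n)) ∧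
      (∀ i, i + 1 + j < n → 0 < ⟪p (i + 1) - p i, w i⟫_ℝ) ∧
      p (n - 1 - j) - ⟪p (n - 1 - j), w (n - 1 - j)⟫_ℝ • w (n - 1 - j) = y ∧
      w (n - 1 - j) = v := by
  obtain ⟨c, hc⟩ : ∃ c : ℕ → ℕ, c = fun i => (i + j) % n := ⟨_, rfl⟩
  obtain ⟨h3, h4⟩ := ray_chain h hj c hc
  have hpos := h.pos
  have c0 : c 0 = j := by rw [hc]; simp only [zero_add]; exact Nat.mod_eq_of_lt hj
  have cn : c n = j := by
    rw [hc]
    simp only [Nat.add_mod_left]
    exact Nat.mod_eq_of_lt hj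
  have cv : ∀ i < n, c i = if i + j < n then i + j else i + j - n := by
    intro i hi
    rw [hc]
    simp only
    by_cases h3 : i + j < n
    · rw [Nat.mod_eq_of_lt h3, if_pos h3]
    · rw [if_neg h3, Nat.mod_eq_sub_mod (by omega)]
      exact Nat.mod_eq_of_lt (by omega)
  have cl : c (n - 1 - j) = n - 1 := by
    rw [cv _ (by omega), if_pos (by omega)]
    omega
  have hvv : ⟪v, v⟫_ℝ = 1 := by
    rw [real_inner_self_eq_norm_sq, h.unit]; norm_num
  refine ⟨fun i => A (c i), fun i => u (c i), h3, ?_, ?_, h4, ?_, ?_, ?_, ?_⟩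
  · simp only [cn, c0]
  · simp only [cn, c0]
  · intro i hi
    simp only [cv i hi]
  · intro i hi
    have hu := h3.units i
    simp only at hu ⊢
    rw [cv (i + 1) (by omega), if_pos (by omega), cv i (by omega), if_pos (by omega)]
    rw [cv i (by omega), if_pos (by omega)] at hu
    obtain ⟨t, ht, hq, -⟩ := h.step (i + j) (by omega)
    rw [show i + 1 + j = i + j + 1 by omega, hq, add_sub_cancel_left, real_inner_smul_left, hu,
      mul_one]
    exact ht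
  · obtain ⟨s1, hs1, -⟩ := h.last
    have hout := h.out
    have hperp := h.perp
    simp only [cl]
    rw [hs1, hout, inner_add_left, real_inner_smul_left, hvv, hperp]
    simp
  · simp only [cl]
    exact h.out

theorem invPair_null (h1 : S2_CHART) (h2 : S2_LOCAL) (hGOOD : S_GOOD) (hp1 : S2_PT1)
    (hp2 : S2_PT2) (hp3 : S2_PT3) (hC2 : S2_CORE2) {d : ℕ} (hd : 2 ≤ d)
    (B : Set (EuclideanSpace ℝ (Fin d))) :
    μH[((2 * d - 2 : ℕ) : ℝ)] (InvPair B) = 0 := by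
  have hone := invOne_null hd B
  obtain ⟨m, rfl⟩ : ∃ m, d = m + 2 := ⟨d - 2, by omega⟩
  have e2 : 2 * (m + 2) - 2 = 2 * m + 2 := by omega
  rw [e2] at hone ⊢
  obtain ⟨G, hG⟩ : ∃ G : EE m × EE m → EE m × EE m,
    G = fun z => (z.1 - ⟪z.1, z.2⟫_ℝ • z.2, z.2) := ⟨_, rfl⟩
  have hGc : ContDiff ℝ 1 G := by
    rw [hG]
    exact (contDiff_fst.sub ((contDiff_fst.inner ℝ contDiff_snd).smul contDiff_snd)).prodMk
      contDiff_snd
  refine measure_mono_null (t := InvOne B ∪ ⋃ n : ℕ, ⋃ j : ℕ, ⋃ l : ℕ, ⋃ (_ : 1 ≤ j ∧ j < n),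
    ⋃ (_ : l ≤ n),
    (G '' ((fun w : (ℕ → EE m) × (ℕ → EE m) => (w.1 l, w.2 l)) '' VT Bᶜ n j) ∪
      G '' ((fun w : (ℕ → EE m) × (ℕ → EE m) => (w.1 l, w.2 l)) '' VA Bᶜ n j))) ?_ ?_
  · rintro ⟨y, v⟩ ⟨n, A, u, h, a, b, hab, hbn, hal, hcase⟩
    rcases eq_or_lt_of_le hab with rfl | hab
    · left
      exact ⟨n, A, u, h, a, hbn, fun i hi hia => hal i hi hia hia⟩
    right
    rcases hcase with hA | hB | hZ
    · -- the first vertex is algebraic: start at the second one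
      obtain ⟨p, w, q1, q2, q3, q4, q5, -, q7, q8⟩ := rot h hbn
      refine mem_iUnion.2 ⟨n, mem_iUnion.2 ⟨n - b + a, mem_iUnion.2 ⟨n - 1 - b, mem_iUnion₂.2
        ⟨⟨by omega, by omega⟩, by omega, Or.inr ?_⟩⟩⟩⟩
      refine ⟨_, ⟨(p, w), ⟨q1, q2, q3, ?_, ?_, q4⟩, rfl⟩, ?_⟩
      · intro k hk1 hk hkj
        change AlgAt Bᶜ (p k)
        apply algAt_compl
        rw [q5 k hk]
        apply hal <;> split_ifs <;> omega
      · change AnyAlg Bᶜ (p (n - b + a))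
        apply anyAlg_compl
        rw [q5 _ (by omega), if_neg (by omega), show n - b + a + b - n = a by omega]
        exact hA
      · rw [hG]
        exact Prod.ext q7 q8
    · obtain ⟨p, w, q1, q2, q3, q4, q5, -, q7, q8⟩ := rot h (show a < n by omega)
      refine mem_iUnion.2 ⟨n, mem_iUnion.2 ⟨b - a, mem_iUnion.2 ⟨n - 1 - a, mem_iUnion₂.2
        ⟨⟨by omega, by omega⟩, by omega, Or.inr ?_⟩⟩⟩⟩
      refine ⟨_, ⟨(p, w), ⟨q1, q2, q3, ?_, ?_, q4⟩, rfl⟩, ?_⟩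
      · intro k hk1 hk hkj
        change AlgAt Bᶜ (p k)
        apply algAt_compl
        rw [q5 k hk]
        apply hal <;> split_ifs <;> omega
      · change AnyAlg Bᶜ (p (b - a))
        apply anyAlg_compl
        rw [q5 _ (by omega), if_pos (by omega), show b - a + a = b by omega]
        exact hB
      · rw [hG]
        exact Prod.ext q7 q8
    · obtain ⟨p, w, q1, q2, q3, q4, q5, q6, q7, q8⟩ := rot h (show a < n by omega)
      refine mem_iUnion.2 ⟨n, mem_iUnion.2 ⟨b - a, mem_iUnion.2 ⟨n - 1 - a, mem_iUnion₂.2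
        ⟨⟨by omega, by omega⟩, by omega, Or.inl ?_⟩⟩⟩⟩
      refine ⟨_, ⟨(p, w), ⟨q1, q2, q3, ?_, ?_, ?_, q4⟩, rfl⟩, ?_⟩
      · intro k hk1 hk hkj
        change AlgAt Bᶜ (p k)
        apply algAt_compl
        rw [q5 k hk]
        apply hal <;> split_ifs <;> omega
      · intro k hk1 hkj
        change ZeroCurv Bᶜ (p k)
        rw [q5 k (by omega), if_pos (by omega)]
        exact hZ _ (by omega) (by omega)
      · intro k hkj
        exact q6 k (by omega)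
      · rw [hG]
        exact Prod.ext q7 q8
  · refine measure_union_null hone (measure_iUnion_null fun n => measure_iUnion_null fun j =>
      measure_iUnion_null fun l => measure_iUnion_null fun hj => measure_iUnion_null fun hl =>
      measure_union_null ?_ ?_)
    · exact img_null' (Nat.cast_nonneg _) (fun z _ => hGc.contDiffAt) (vt_null h1 h2 hl hj.1 hj.2)
    · exact img_null' (Nat.cast_nonneg _) (fun z _ => hGc.contDiffAt)
        (va_null h1 hGOOD hp1 hp2 hp3 hC2 hl hj.1 hj.2)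

end Pool.Agent.Y294.IV.D
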