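import Pool.Agent.Y294.TB2.Stm
import Pool.Agent.Y294.IV.Stm

/-!
Statements for rays of invisibility in all dimensions with two arbitrary reflections, the reflections
between them being at points of zero curvature. Adapted from `Pool/Agent/Y294/TB2/Stm.lean`.
-/

set_option autoImplicit false

open MeasureTheory Set Filter Topology
open scoped InnerProductSpace
open Pool.Agent.H721R2.Quart Pool.Agent.H721R2.Ivrii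

namespace Pool.Agent.Y294.IV.D

open Pool.Agent.TH746 Pool.Agent.TH746.AL MvPolynomial H450Al H450Sp Pool.Agent.Y294.TB
open Pool.Agent.Y294.TB2
open Pool.Agent.TH746.IR (VOrb)

/-! ### Charts -/

/-- the coordinates of positions, directions and normals along a chain -/
def vv2 {m : ℕ} {Z : Type*} [NormedAddCommGroup Z] [NormedSpace ℝ Z] (C : Chn (EE m) Z) :
    Fin 3 × Fin (C.N + 1) × Fin (m + 2) → Z → ℝ := fun l z =>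
  (if l.1 = 0 then C.x l.2.1 z else if l.1 = 1 then C.e l.2.1 z else C.n l.2.1 z).ofLp l.2.2

/-- SURJ -/
def S2_SURJ : Prop :=
  ∀ (m : ℕ) (Z : Type) [NormedAddCommGroup Z] [NormedSpace ℝ Z] (C : Chn (EE m) Z),
    ∀ k < C.N, ∀ z ∈ C.U, ∀ Y δ, ⟪C.n k z, Y⟫_ℝ = 0 → ⟪C.e k z, δ⟫_ℝ = 0 →
      ∃ ζ, fderiv ℝ (C.x k) z ζ = Y ∧ fderiv ℝ (C.e k) z ζ = δ

/-- NI -/
def S2_NI : Prop :=
  ∀ (m : ℕ) (Z : Type) [NormedAddCommGroup Z] [NormedSpace ℝ Z] [FiniteDimensional ℝ Z]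
    [MeasurableSpace Z] [BorelSpace Z] (μ : Measure Z) [μ.IsAddHaarMeasure]
    (C : Chn (EE m) Z) (j : ℕ), 1 ≤ j → j < C.N →
    μ {z | z ∈ C.U ∧ C.e j z = -C.e (j - 1) z} = 0

/-- PT1 -/
def S2_PT1 : Prop :=
  ∀ (m : ℕ) (Z : Type) [NormedAddCommGroup Z] [NormedSpace ℝ Z] (C : Chn (EE m) Z) (k : Type)
    [Field k] [Algebra k ℝ] (z : Z), z ∈ C.U → GoodAt k (vv2 C) z → ∀ i < C.N,
    ((m + 1 : ℕ) : ℕ∞) ≤ rk k (range (C.x i z).ofLp)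

/-- PT2 -/
def S2_PT2 : Prop :=
  ∀ (m : ℕ) (Z : Type) [NormedAddCommGroup Z] [NormedSpace ℝ Z] (C : Chn (EE m) Z) (k : Type)
    [Field k] [Algebra k ℝ] (z : Z), z ∈ C.U → GoodAt k (vv2 C) z → ∀ i < C.N,
    rk k (range (C.x i z).ofLp) ≤ ((m + 1 : ℕ) : ℕ∞) →
    ∃ Φ : MvPolynomial (Fin (m + 2)) k, aeval (C.x i z).ofLp Φ = 0 ∧
      grad Φ (C.x i z).ofLp ≠ 0 ∧
      (∀ v : EE m, (rf (C.n i z) v).ofLp = refl (grad Φ (C.x i z).ofLp) v.ofLp) ∧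
      (∀ v : EE m, ⟪C.n i z, v⟫_ℝ ≠ 0 → ∑ l, v.ofLp l * grad Φ (C.x i z).ofLp l ≠ 0)

/-- the data of the initial vertex are functions of the first parameter, the initial direction is
a function of the second one -/
structure Split2 {m : ℕ} {Z₁ Z₂ : Type*} [NormedAddCommGroup Z₁] [NormedSpace ℝ Z₁]
    [NormedAddCommGroup Z₂] [NormedSpace ℝ Z₂] (C : Chn (EE m) (Z₁ × Z₂)) : Prop where
  x0 : ∃ X : Z₁ → EE m, C.x 0 = fun z => X z.1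
  n0 : ∃ ν : Z₁ → EE m, C.n 0 = fun z => ν z.1
  e0 : ∃ Y : Z₂ → EE m, C.e 0 = fun z => Y z.2

/-- PT3 -/
def S2_PT3 : Prop :=
  ∀ (m : ℕ) (Z₁ Z₂ : Type) [NormedAddCommGroup Z₁] [NormedSpace ℝ Z₁] [NormedAddCommGroup Z₂]
    [NormedSpace ℝ Z₂] (C : Chn (EE m) (Z₁ × Z₂)) (k : Type) [Field k] [Algebra k ℝ]
    (z : Z₁ × Z₂), z ∈ C.U → Split2 C → GoodAt k (vv2 C) z →
    ((m + 1 : ℕ) : ℕ∞) ≤
      rk (IntermediateField.adjoin k (range (C.x 0 z).ofLp ∪ range (C.n 0 z).ofLp))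
        (range (C.e 0 z).ofLp)

/-- FLAT: the vertex `j` depends in a nondegenerate way on the initial direction if the mirrors in
between have zero curvature -/
def S2_FLAT : Prop :=
  ∀ (m : ℕ) (Z₁ Z₂ : Type) [NormedAddCommGroup Z₁] [NormedSpace ℝ Z₁] [NormedAddCommGroup Z₂]
    [NormedSpace ℝ Z₂] [FiniteDimensional ℝ Z₂] (C : Chn (EE m) (Z₁ × Z₂)) (z : Z₁ × Z₂),
    z ∈ C.U → Split2 C → Module.finrank ℝ Z₂ = m + 1 → ∀ j, 1 ≤ j → j < C.N →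
    (∀ i, 1 ≤ i → i < j → C.S i z = 0) → (∀ i < j, 0 < C.L i z) →
    ∀ ζ : Z₂, fderiv ℝ (C.x j) z (0, ζ) = 0 → ζ = 0

/-- CHART -/
def S2_CHART : Prop :=
  ∀ (m : ℕ) (Ω : Set (EE m)) (n : ℕ) (p u : ℕ → EE m), 1 ≤ n → VOrb Ω p u → p n = p 0 →
    ∃ (a b : EE m) (C : Chn (EE m) ((ℝ ∙ a)ᗮ × (ℝ ∙ b)ᗮ)), a ≠ 0 ∧ b ≠ 0 ∧
      C.N = n ∧ C.g = AffineIsometryEquiv.refl ℝ (EE m) ∧ Split2 C ∧
      (∀ z ∈ C.U, ∀ k ≤ n, ContDiffAt ℝ 1 (C.x k) z) ∧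
      (∀ k ≤ n, ∃ (c : EE m) (T : EE m →L[ℝ] (ℝ ∙ c)ᗮ), c ≠ 0 ∧
        (∀ z ∈ C.U, ∀ z' ∈ C.U, T (C.x k z) = T (C.x k z') → C.x k z = C.x k z') ∧
        ∀ z ∈ C.U, ∀ ζ, T (fderiv ℝ (C.x k) z ζ) = 0 → fderiv ℝ (C.x k) z ζ = 0) ∧
      (∀ i ≤ n, ∃ K, LipschitzOnWith K (fun z => (C.x i z, C.e i z)) C.U) ∧
      ∀ᶠ w : (ℕ → EE m) × (ℕ → EE m) in 𝓝 (p, u), VOrb Ω w.1 w.2 → w.1 n = w.1 0 →
        ∃ z ∈ C.U, (∀ k ≤ n, C.x k z = w.1 k ∧ C.e k z = w.2 k) ∧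
          C.n C.N z = C.n 0 z ∧ ∀ k < n, ZeroCurv Ω (w.1 k) → C.S k z = 0

/-- LOCAL -/
def S2_LOCAL : Prop :=
  ∀ (m : ℕ) (Z₁ Z₂ W : Type) [NormedAddCommGroup Z₁] [NormedSpace ℝ Z₁] [FiniteDimensional ℝ Z₁]
    [MeasurableSpace Z₁] [BorelSpace Z₁] [NormedAddCommGroup Z₂] [NormedSpace ℝ Z₂]
    [FiniteDimensional ℝ Z₂] [MeasurableSpace Z₂] [BorelSpace Z₂]
    [NormedAddCommGroup W] [NormedSpace ℝ W] [FiniteDimensional ℝ W]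
    (μ : Measure (Z₁ × Z₂)) [μ.IsAddHaarMeasure] (C : Chn (EE m) (Z₁ × Z₂)) (k : Subfield ℝ)
    (_ : Countable k) (j : ℕ) (P : ℕ → MvPolynomial (Fin (m + 2)) k),
    Module.finrank ℝ Z₂ = m + 1 → Module.finrank ℝ W = m + 1 → Split2 C →
    (∀ z ∈ C.U, ∀ i ≤ C.N, ContDiffAt ℝ 1 (C.x i) z) →
    (∃ T : EE m →L[ℝ] W,
      (∀ z ∈ C.U, ∀ z' ∈ C.U, T (C.x j z) = T (C.x j z') → C.x j z = C.x j z') ∧
      ∀ z ∈ C.U, ∀ ζ, T (fderiv ℝ (C.x j) z ζ) = 0 → fderiv ℝ (C.x j) z ζ = 0) →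
    1 ≤ j → j < C.N →
    (∀ i, (C.g 0).ofLp i ∈ k) →
    (∀ i l, (C.g.linearIsometryEquiv (EuclideanSpace.single i 1)).ofLp l ∈ k) →
    (∀ i, 1 ≤ i → i < C.N → i ≠ j → NC2 (map (algebraMap k ℝ) (P i))) →
    μ {z | z ∈ C.U ∧ C.x C.N z = C.g (C.x 0 z) ∧ C.e C.N z = C.G (C.e 0 z) ∧
      C.n C.N z = C.G (C.n 0 z) ∧
      (∀ i, 1 ≤ i → i < C.N → i ≠ j → aeval (C.x i z).ofLp (P i) = 0) ∧
      (∀ i, 1 ≤ i → i < j → C.S i z = 0) ∧ (∀ i < j, 0 < C.L i z) ∧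
      ∑ i ∈ Finset.range C.N, C.L i z ≠ 0} = 0

end Pool.Agent.Y294.IV.D
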