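import Pool.Agent.Y294.TB2.Loc1
import Pool.Agent.Y294.IV.D.Stm

/-!
Consequences of the algebraic theorems at a good point of a chart, in all dimensions.
-/

set_option autoImplicit false

open MeasureTheory Set Filter Topology
open scoped InnerProductSpace
open Pool.Agent.H721R2.Quart Pool.Agent.H721R2.Ivrii

namespace Pool.Agent.Y294.IV.D

open Pool.Agent.TH746 Pool.Agent.TH746.AL MvPolynomial H450Al H450Sp Pool.Agent.Y294.TB
open Pool.Agent.Y294.TB2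

section chn
variable {m : ℕ} {Z : Type} [NormedAddCommGroup Z] [NormedSpace ℝ Z] (C : Chn (EE m) Z)

theorem e_last2 {z : Z} (hz : z ∈ C.U) (h2 : C.e C.N z = C.G (C.e 0 z))
    (h3 : C.n C.N z = C.G (C.n 0 z)) :
    C.e (C.N - 1) z = C.g.linearIsometryEquiv (rf (C.n 0 z) (C.e 0 z)) := by
  have hN := C.hN
  have h4 := C.refl (C.N - 1) (by omega) z
  rw [Nat.sub_add_cancel hN, h2, h3] at h4
  have hn : ⟪C.G (C.n 0 z), C.G (C.n 0 z)⟫_ℝ = 1 := by rw [C.G_iso]; exact C.nn 0 hN z hz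
  have h5 := congrArg (rf (C.G (C.n 0 z))) h4
  rw [G3_rf_invol hn, ← C.G_rf] at h5
  rw [← h5]
  rfl

theorem tr_prev2 {z : Z} (hz : z ∈ C.U) {i : ℕ} (hi : i + 1 < C.N) :
    ⟪C.n (i + 1) z, C.e i z⟫_ℝ ≠ 0 := by
  intro h
  apply C.tr (i + 1) hi z hz
  rw [C.refl i (by omega) z]
  unfold rf
  rw [inner_sub_right, inner_smul_right, h]
  simp

theorem tr_prev2' {z : Z} (hz : z ∈ C.U) {j : ℕ} (hj : 1 ≤ j) (hjN : j < C.N) :
    ⟪C.n j z, C.e (j - 1) z⟫_ℝ ≠ 0 := by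
  have h := tr_prev2 C hz (i := j - 1) (by omega)
  rwa [Nat.sub_add_cancel hj] at h

theorem cross_j2 {z : Z} (hz : z ∈ C.U) {j : ℕ} (hj : 1 ≤ j) (hjN : j < C.N)
    (hni : C.e j z ≠ -C.e (j - 1) z) :
    ∃ l l', (C.e (j - 1) z).ofLp l * (C.e j z).ofLp l' -
      (C.e (j - 1) z).ofLp l' * (C.e j z).ofLp l ≠ 0 := by
  refine cross_ne2 _ _ (C.ee (j - 1) (by omega) z hz) (C.ee j hjN z hz) ?_ hni
  intro h
  have h1 := C.refl (j - 1) (by omega) z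
  rw [Nat.sub_add_cancel hj, h] at h1
  unfold rf at h1
  have h2 : (2 * ⟪C.n j z, C.e (j - 1) z⟫_ℝ) • C.n j z = 0 := by
    have h3 := sub_eq_self.1 h1.symm
    exact h3
  have h4 : C.n j z ≠ 0 := by
    intro h0
    have := C.nn j hjN z hz
    rw [h0, inner_zero_left] at this
    norm_num at this
  have h5 := (smul_eq_zero.1 h2).resolve_right h4
  exact tr_prev2' C hz hj hjN (by linarith)

variable {κ : Type} [Field κ] [Algebra κ ℝ]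

/-- polynomials with the right normals -/
theorem exists_Phi2 (h2 : S2_PT2) {z : Z} (hz : z ∈ C.U) (hG : GoodAt κ (vv2 C) z) (I : Set ℕ)
    (hr : ∀ i ∈ I, i < C.N ∧ rk κ (range (C.x i z).ofLp) ≤ ((m + 1 : ℕ) : ℕ∞)) :
    ∃ Φ : ℕ → MvPolynomial (Fin (m + 2)) κ, ∀ i ∈ I, aeval (C.x i z).ofLp (Φ i) = 0 ∧
      grad (Φ i) (C.x i z).ofLp ≠ 0 ∧
      (∀ v : EE m, (rf (C.n i z) v).ofLp = refl (grad (Φ i) (C.x i z).ofLp) v.ofLp) ∧
      (∀ v : EE m, ⟪C.n i z, v⟫_ℝ ≠ 0 → ∑ l, v.ofLp l * grad (Φ i) (C.x i z).ofLp l ≠ 0) := by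
  classical
  have h : ∀ i, ∃ Φ : MvPolynomial (Fin (m + 2)) κ, i ∈ I → (aeval (C.x i z).ofLp Φ = 0 ∧
      grad Φ (C.x i z).ofLp ≠ 0 ∧
      (∀ v : EE m, (rf (C.n i z) v).ofLp = refl (grad Φ (C.x i z).ofLp) v.ofLp) ∧
      (∀ v : EE m, ⟪C.n i z, v⟫_ℝ ≠ 0 → ∑ l, v.ofLp l * grad Φ (C.x i z).ofLp l ≠ 0)) := by
    intro i
    by_cases hi : i ∈ I
    · obtain ⟨Φ, hΦ⟩ := h2 m Z C κ z hz hG i (hr i hi).1 (hr i hi).2
      exact ⟨Φ, fun _ => hΦ⟩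
    · exact ⟨0, fun h => absurd h hi⟩
  choose Φ hΦ using h
  exact ⟨Φ, hΦ⟩

theorem rk_le_one2 {x : Fin (m + 2) → ℝ} {P : MvPolynomial (Fin (m + 2)) κ} (hP : P ≠ 0)
    (h : aeval x P = 0) : rk κ (range x) ≤ ((m + 1 : ℕ) : ℕ∞) :=
  rk_lt_of_relation κ x P hP h

theorem ofLp_step2 {z : Z} {i : ℕ} (hi : i < C.N) :
    (C.x (i + 1) z).ofLp = fun l => (C.x i z).ofLp l + C.L i z * (C.e i z).ofLp l := by
  rw [C.step i hi z]
  rfl

theorem xj_mem2 (hT : S2_TWO) (h2 : S2_PT2) (h0 : ∀ i, InF κ ((C.g 0).ofLp i))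
    (hg : ∀ i l, InF κ ((C.g.linearIsometryEquiv (EuclideanSpace.single i 1)).ofLp l)) {z : Z}
    (hz : z ∈ C.U) (hG : GoodAt κ (vv2 C) z) (hx : C.x C.N z = C.g (C.x 0 z))
    (he : C.e C.N z = C.G (C.e 0 z)) (hn : C.n C.N z = C.G (C.n 0 z)) {j : ℕ} (hj : 1 ≤ j)
    (hjN : j < C.N) (P : ℕ → MvPolynomial (Fin (m + 2)) κ)
    (hP : ∀ i, 1 ≤ i → i < C.N → i ≠ j → P i ≠ 0 ∧ aeval (C.x i z).ofLp (P i) = 0)
    (hni : C.e j z ≠ -C.e (j - 1) z) :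
    ∀ i, (C.x j z).ofLp i ∈
      cl κ ((range (C.x 0 z).ofLp ∪ range (C.n 0 z).ofLp) ∪ range (C.e 0 z).ofLp) := by
  obtain ⟨Φ, hΦ⟩ := exists_Phi2 C h2 hz hG {i | 1 ≤ i ∧ i < C.N ∧ i ≠ j}
    (fun i hi => ⟨hi.2.1, rk_le_one2 (hP i hi.1 hi.2.1 hi.2.2).1 (hP i hi.1 hi.2.1 hi.2.2).2⟩)
  have hx0 : ∀ i, (C.x 0 z).ofLp i ∈
      cl κ ((range (C.x 0 z).ofLp ∪ range (C.n 0 z).ofLp) ∪ range (C.e 0 z).ofLp) :=
    fun i => subset_cl κ _ (Or.inl (Or.inl (mem_range_self i)))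
  have hn0 : ∀ i, (C.n 0 z).ofLp i ∈
      cl κ ((range (C.x 0 z).ofLp ∪ range (C.n 0 z).ofLp) ∪ range (C.e 0 z).ofLp) :=
    fun i => subset_cl κ _ (Or.inl (Or.inr (mem_range_self i)))
  have he0 : ∀ i, (C.e 0 z).ofLp i ∈
      cl κ ((range (C.x 0 z).ofLp ∪ range (C.n 0 z).ofLp) ∪ range (C.e 0 z).ofLp) :=
    fun i => subset_cl κ _ (Or.inr (mem_range_self i))
  refine hT (m + 2) κ C.N j _ Φ (fun i => (C.x i z).ofLp) (fun i => (C.e i z).ofLp)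
    (fun i => C.L i z) hj hjN hx0 he0 ?_ ?_ ?_ ?_ ?_ ?_ ?_
  · intro i
    simp only [hx]
    exact aff_cl2 C.g h0 hg _ hx0 i
  · intro i
    simp only [e_last2 C hz he hn]
    exact lin_cl2 C.g hg _ (rf_cl2 _ _ hn0 he0) i
  · intro i h1 hi hij
    exact (hΦ i ⟨h1, hi, hij⟩).1
  · intro i hi hij
    have h5 := (hΦ (i + 1) ⟨by omega, hi, hij⟩).2.2.2 (C.e i z) (tr_prev2 C hz hi)
    intro h6
    apply h5
    rw [← h6]
    exact Finset.sum_congr rfl fun l _ => mul_comm _ _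
  · intro i hi
    exact ofLp_step2 C hi
  · intro i hi hij
    have h5 := (hΦ (i + 1) ⟨by omega, hi, hij⟩).2.2.1 (C.e i z)
    simp only
    rw [C.refl i (by omega) z, h5]
  · exact cross_j2 C hz hj hjN hni

end chn

section split
variable {m : ℕ} {Z₁ Z₂ : Type} [NormedAddCommGroup Z₁] [NormedSpace ℝ Z₁] [NormedAddCommGroup Z₂]
  [NormedSpace ℝ Z₂] (C : Chn (EE m) (Z₁ × Z₂)) {κ : Type} [Field κ] [Algebra κ ℝ]

theorem countable_adj2 [Countable κ] (x y : Fin (m + 2) → ℝ) :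
    Countable (IntermediateField.adjoin κ (range x ∪ range y)) := by
  have h1 : ((IntermediateField.adjoin κ (range x ∪ range y) : IntermediateField κ ℝ) : Set ℝ) ⊆
      cl κ (range (Sum.elim x y)) := by
    intro a ha
    have h2 := cl_union κ (range x ∪ range y) ∅
    rw [union_empty] at h2
    rw [Set.Sum.elim_range, h2]
    exact (clAlg (IntermediateField.adjoin κ (range x ∪ range y)) ∅).algebraMap_mem ⟨a, ha⟩
  exact ((countable_cl _).mono h1).to_subtype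

theorem nondegen2 [Countable κ] (hC2 : S2_CORE2) (h1 : S2_PT1) (h2 : S2_PT2) (h3 : S2_PT3)
    (h0 : ∀ i, InF κ ((C.g 0).ofLp i))
    (hg : ∀ i l, InF κ ((C.g.linearIsometryEquiv (EuclideanSpace.single i 1)).ofLp l))
    (hS : Split2 C) {z : Z₁ × Z₂} (hz : z ∈ C.U) (hG : GoodAt κ (vv2 C) z)
    (hx : C.x C.N z = C.g (C.x 0 z)) (he : C.e C.N z = C.G (C.e 0 z))
    (hn : C.n C.N z = C.G (C.n 0 z)) {j : ℕ} (hj : 1 ≤ j)
    (hjN : j < C.N) (P : ℕ → MvPolynomial (Fin (m + 2)) κ)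
    (hP : ∀ i, 1 ≤ i → i < C.N → i ≠ j → ¬ Dq κ (m + 2) ∣ lead (P i) ∧
      aeval (C.x i z).ofLp (P i) = 0)
    (hr : rk κ (range (C.x j z).ofLp) ≤ ((m + 1 : ℕ) : ℕ∞))
    (hL : ∑ i ∈ Finset.range C.N, C.L i z ≠ 0) : False := by
  obtain ⟨Φ, hΦ⟩ := exists_Phi2 C h2 hz hG {i | 1 ≤ i ∧ i < C.N} (fun i hi => ⟨hi.2, by
    by_cases hij : i = j
    · rw [hij]; exact hr
    · exact rk_le_one2 (lead_zero_of _ (hP i hi.1 hi.2 hij).1) (hP i hi.1 hi.2 hij).2⟩)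
  have hK := countable_adj2 (κ := κ) (C.x 0 z).ofLp (C.n 0 z).ofLp
  have hn0K : ∀ i, (C.n 0 z).ofLp i ∈
      IntermediateField.adjoin κ (range (C.x 0 z).ofLp ∪ range (C.n 0 z).ofLp) := fun i =>
    IntermediateField.subset_adjoin κ _ (Or.inr (mem_range_self i))
  have hx0K : ∀ i, (C.x 0 z).ofLp i ∈
      IntermediateField.adjoin κ (range (C.x 0 z).ofLp ∪ range (C.n 0 z).ofLp) := fun i =>
    IntermediateField.subset_adjoin κ _ (Or.inl (mem_range_self i))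
  have hr0 := h1 m (Z₁ × Z₂) C κ z hz hG 0 C.hN
  refine hC2 m κ (IntermediateField.adjoin κ (range (C.x 0 z).ofLp ∪ range (C.n 0 z).ofLp)) hK C.N j
    P Φ (fun i => (C.x i z).ofLp) (fun i => (C.e i z).ofLp) (fun i => C.L i z)
    (Mx2 C.g (C.n 0 z)) hj hjN hx0K ?_ hr0 ?_ ?_ ?_ ?_ ?_ ?_ ?_ ?_ ?_ ?_ ?_ ?_ ?_ ?_
  · intro i
    simp only [hx]
    rw [aff_co2]
    refine add_mem (sum_mem fun l _ => mul_mem (hx0K l) ?_) ?_
    · obtain ⟨c, hc⟩ := hg l i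
      rw [← hc]
      exact IntermediateField.algebraMap_mem _ c
    · obtain ⟨c, hc⟩ := h0 i
      rw [← hc]
      exact IntermediateField.algebraMap_mem _ c
  · simp only [hx]
    exact hr0.trans (rk_aff2 C.g h0 hg (C.x 0 z))
  · exact h3 m Z₁ Z₂ C κ z hz hS hG
  · rw [← norm_co2]
    exact C.ee 0 C.hN z hz
  · exact Mx2_mem _ C.g hg _ hn0K
  · exact Mx2_norm C.g _ (C.nn 0 C.hN z hz)
  · funext i
    simp only
    rw [Mx2_apply, e_last2 C hz he hn]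
  · intro i hi1 hi hij
    exact (hP i hi1 hi hij).2
  · intro i hi1 hi hij
    exact (hP i hi1 hi hij).1
  · intro i hi1 hi
    exact (hΦ i ⟨hi1, hi⟩).1
  · intro i hi1 hi
    exact (hΦ i ⟨hi1, hi⟩).2.1
  · intro i hi
    exact ofLp_step2 C hi
  · intro i hi
    have h5 := (hΦ (i + 1) ⟨by omega, hi⟩).2.2.1 (C.e i z)
    simp only
    rw [C.refl i (by omega) z, h5]
  · exact (hΦ j ⟨hj, hjN⟩).2.2.2 _ (tr_prev2' C hz hj hjN)
  · exact hL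

end split

end Pool.Agent.Y294.IV.D
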