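import Pool.Agent.Y294.IV.D.Loc3

/-!
The local statement with an algebraic second vertex. Adapted from `Pool/Agent/Y294/TB2/Alg.lean`.
-/

set_option autoImplicit false

open MeasureTheory Set Filter Topology
open scoped InnerProductSpace
open Pool.Agent.H721R2.Quart Pool.Agent.H721R2.Ivrii

namespace Pool.Agent.Y294.IV.D

open Pool.Agent.TH746 Pool.Agent.TH746.AL MvPolynomial H450Al H450Sp Pool.Agent.Y294.TB
open Pool.Agent.Y294.TB2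

theorem localA (hGOOD : S_GOOD) (h1 : S2_PT1) (h2 : S2_PT2) (h3 : S2_PT3) (hC2 : S2_CORE2)
    {m : ℕ} {Z₁ Z₂ : Type} [NormedAddCommGroup Z₁] [NormedSpace ℝ Z₁] [FiniteDimensional ℝ Z₁]
    [MeasurableSpace Z₁] [BorelSpace Z₁] [NormedAddCommGroup Z₂] [NormedSpace ℝ Z₂]
    [FiniteDimensional ℝ Z₂] [MeasurableSpace Z₂] [BorelSpace Z₂]
    (μ : Measure (Z₁ × Z₂)) [μ.IsAddHaarMeasure] (C : Chn (EE m) (Z₁ × Z₂)) (k : Subfield ℝ)
    (hk : Countable k) (j : ℕ) (P : ℕ → MvPolynomial (Fin (m + 2)) k) (hS : Split2 C)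
    (hj : 1 ≤ j) (hjN : j < C.N) (h0 : ∀ i, (C.g 0).ofLp i ∈ k)
    (hg : ∀ i l, (C.g.linearIsometryEquiv (EuclideanSpace.single i 1)).ofLp l ∈ k)
    (hnc : ∀ i, 1 ≤ i → i < C.N → i ≠ j → NC2 (map (algebraMap k ℝ) (P i))) (hPj : P j ≠ 0) :
    μ {z | z ∈ C.U ∧ C.x C.N z = C.g (C.x 0 z) ∧ C.e C.N z = C.G (C.e 0 z) ∧
      C.n C.N z = C.G (C.n 0 z) ∧ ∑ i ∈ Finset.range C.N, C.L i z ≠ 0 ∧
      ∀ i, 1 ≤ i → i < C.N → aeval (C.x i z).ofLp (P i) = 0} = 0 := by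
  have hN := C.hN
  obtain ⟨A, hAdef⟩ : ∃ A, A = {z | z ∈ C.U ∧ C.x C.N z = C.g (C.x 0 z) ∧
      C.e C.N z = C.G (C.e 0 z) ∧ C.n C.N z = C.G (C.n 0 z) ∧
      ∑ i ∈ Finset.range C.N, C.L i z ≠ 0 ∧
      ∀ i, 1 ≤ i → i < C.N → aeval (C.x i z).ofLp (P i) = 0} := ⟨_, rfl⟩
  rw [← hAdef]
  have hcof : Continuous (fun y : EE m => y.ofLp) := (EuclideanSpace.equiv (Fin (m + 2)) ℝ).continuous
  have hAm : MeasurableSet A := by
    have hA : A = ((C.U ∩ (fun z => C.x C.N z - C.g (C.x 0 z)) ⁻¹' {0}) ∩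
        ((C.U ∩ (fun z => C.e C.N z - C.G (C.e 0 z)) ⁻¹' {0}) ∩
        ((C.U ∩ (fun z => C.n C.N z - C.G (C.n 0 z)) ⁻¹' {0}) ∩
        (C.U \ (C.U ∩ (fun z => ∑ i ∈ Finset.range C.N, C.L i z) ⁻¹' {0}))))) ∩
        ⋂ i ∈ {i : ℕ | 1 ≤ i ∧ i < C.N},
          (C.U ∩ (fun z => aeval (C.x i z).ofLp (P i)) ⁻¹' {0}) := by
      rw [hAdef]
      ext z
      simp only [mem_ofPred_eq, mem_inter_iff, mem_preimage, mem_singleton_iff, sub_eq_zero,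
        mem_iInter]
      constructor
      · rintro ⟨a1, a2, a3, a4, a6, a5⟩
        exact ⟨⟨⟨a1, a2⟩, ⟨a1, a3⟩, ⟨a1, a4⟩, ⟨a1, fun h => a6 h.2⟩⟩,
          fun i hi => ⟨a1, a5 i hi.1 hi.2⟩⟩
      · rintro ⟨⟨⟨a1, a2⟩, ⟨-, a3⟩, ⟨-, a4⟩, ⟨-, a6⟩⟩, a5⟩
        exact ⟨a1, a2, a3, a4, fun h => a6 ⟨a1, h⟩, fun i b1 b2 => (a5 i ⟨b1, b2⟩).2⟩
    rw [hA]
    have hsumc : ∀ z ∈ C.U, ContinuousAt (fun z => ∑ i ∈ Finset.range C.N, C.L i z) z := by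
      intro z hz
      exact tendsto_finsetSum _ fun i hi => (C.dL i (Finset.mem_range.1 hi) z hz).continuousAt
    refine ((C.meas_zero fun z hz => ?_).inter ((C.meas_zero fun z hz => ?_).inter
      ((C.meas_zero fun z hz => ?_).inter
      (C.hU.measurableSet.diff (C.meas_zero hsumc))))).inter
      (MeasurableSet.biInter (Set.to_countable _) fun i hi => C.meas_zero fun z hz => ?_)
    · exact (C.dx C.N le_rfl z hz).continuousAt.sub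
        (C.g.continuous.continuousAt.comp (C.dx 0 hN.le z hz).continuousAt)
    · exact (C.de C.N le_rfl z hz).continuousAt.sub
        (C.G.continuous.continuousAt.comp (C.de 0 hN.le z hz).continuousAt)
    · exact (C.dn C.N le_rfl z hz).continuousAt.sub
        (C.G.continuous.continuousAt.comp (C.dn 0 hN.le z hz).continuousAt)
    · exact ((continuous_aeval' (P i)).comp hcof).continuousAt.comp
        (C.dx i hi.2.le z hz).continuousAt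
  have hAU : A ⊆ C.U := by rw [hAdef]; exact fun z hz => hz.1
  obtain ⟨B, hBA, hBm, hBn, hB⟩ := hGOOD (Z₁ × Z₂) μ k (Fin 3 × Fin (C.N + 1) × Fin (m + 2))
    (vv2 C) A hAm (fun z hz l => vv2_diff C (hAU hz) l)
  by_contra hne
  have hBne : B.Nonempty := by
    by_contra hcon
    rw [Set.not_nonempty_iff_eq_empty] at hcon
    rw [hcon, Set.sdiff_empty] at hBn
    exact hne hBn
  obtain ⟨z, hz⟩ := hBne
  have hzA := hBA hz
  have hzU := hAU hzA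
  rw [hAdef] at hzA
  obtain ⟨-, a2, a3, a4, a6, a5⟩ := hzA
  exact nondegen2 C hC2 h1 h2 h3 (fun i => ⟨⟨_, h0 i⟩, rfl⟩) (fun i l => ⟨⟨_, hg i l⟩, rfl⟩) hS hzU
    (hB z hz) a2 a3 a4 hj hjN P
    (fun i b1 b2 b3 => ⟨descend_lead (P i) (hnc i b1 b2 b3), a5 i b1 b2⟩)
    (rk_le_one2 hPj (a5 j hj hjN)) a6

end Pool.Agent.Y294.IV.D
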