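import Pool.Agent.Y294.IV.D.Stm
import Pool.Agent.Y294.IV.SURJ

/-!
Variations at every side, normal incidence, flat segments.
-/

set_option autoImplicit false

open MeasureTheory Set Filter Topology
open scoped InnerProductSpace
open Pool.Agent.H721R2.Quart Pool.Agent.H721R2.Ivrii

namespace Pool.Agent.Y294.IV.D

open Pool.Agent.TH746 H450Sp Pool.Agent.Y294.TB2
open Pool.Agent.Y294.IV.SU (surj_gen)

theorem surj : S2_SURJ := by
  intro m Z _ _ C k hk z hz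
  exact surj_gen C hz k hk

theorem finrank_perp {m : ℕ} (v : EE m) (hv : v ≠ 0) : Module.finrank ℝ (ℝ ∙ v)ᗮ = m + 1 := by
  haveI : Fact (Module.finrank ℝ (EE m) = (m + 1) + 1) := ⟨by simp [EE]⟩
  exact Submodule.finrank_orthogonal_span_singleton hv

theorem exists_perp {m : ℕ} (v : EE m) (hv : ⟪v, v⟫_ℝ = 1) : ∃ δ : EE m, δ ≠ 0 ∧ ⟪v, δ⟫_ℝ = 0 := by
  have hv0 : v ≠ 0 := by
    rintro rfl
    simp at hv
  have h := finrank_perp v hv0
  have h1 : (ℝ ∙ v)ᗮ ≠ ⊥ := by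
    intro h2
    rw [h2, finrank_bot] at h
    omega
  obtain ⟨δ, hδ, hδ0⟩ := Submodule.exists_mem_ne_zero_of_ne_bot h1
  exact ⟨δ, hδ0, Submodule.mem_orthogonal_singleton_iff_inner_right.1 hδ⟩

theorem ni : S2_NI := by
  intro m Z _ _ _ _ _ μ _ C j hj1 hjN
  obtain ⟨i, rfl⟩ : ∃ i, j = i + 1 := ⟨j - 1, by omega⟩
  have hi : i < C.N := by omega
  simp only [Nat.add_sub_cancel]
  have hd : ∀ z ∈ C.U, DifferentiableAt ℝ (fun z => C.e (i + 1) z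
      - ⟪C.n (i + 1) z, C.e (i + 1) z⟫_ℝ • C.n (i + 1) z) z := by
    intro z hz
    exact (C.de (i + 1) hi z hz).sub
      (((C.dn (i + 1) hi z hz).inner ℝ (C.de (i + 1) hi z hz)).smul (C.dn (i + 1) hi z hz))
  obtain ⟨B, hB, hBm, hBn, hBz⟩ := ae_zero μ C.hU.measurableSet hd
  refine measure_mono_null ?_ hBn
  rintro z ⟨hz, he⟩
  refine ⟨hz, fun hzB => ?_⟩
  have hn : ⟪C.n (i + 1) z, C.n (i + 1) z⟫_ℝ = 1 := C.nn (i + 1) hjN z hz
  have hee : ⟪C.e (i + 1) z, C.e (i + 1) z⟫_ℝ = 1 := C.ee (i + 1) hjN z hz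
  have htr : ⟪C.n (i + 1) z, C.e (i + 1) z⟫_ℝ ≠ 0 := C.tr (i + 1) hjN z hz
  have hrefl : C.e (i + 1) z = rf (C.n (i + 1) z) (C.e i z) := C.refl i hi z
  -- the direction is normal
  have hpar : C.e (i + 1) z = ⟪C.n (i + 1) z, C.e (i + 1) z⟫_ℝ • C.n (i + 1) z := by
    have h1 : C.e i z = -C.e (i + 1) z := by rw [he, neg_neg]
    have h2 : C.e (i + 1) z = -C.e (i + 1) z
        + (2 * ⟪C.n (i + 1) z, C.e (i + 1) z⟫_ℝ) • C.n (i + 1) z := by
      nth_rewrite 1 [hrefl]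
      rw [h1]
      unfold rf
      rw [inner_neg_right]
      module
    have h3 : (2 : ℝ) • C.e (i + 1) z
        = (2 : ℝ) • (⟪C.n (i + 1) z, C.e (i + 1) z⟫_ℝ • C.n (i + 1) z) := by
      rw [smul_smul, two_smul]
      nth_rewrite 1 [h2]
      abel
    exact smul_right_injective _ (two_ne_zero) h3
  have hH : C.e (i + 1) z - ⟪C.n (i + 1) z, C.e (i + 1) z⟫_ℝ • C.n (i + 1) z = 0 := by
    rw [← hpar, sub_self]
  have hf := hBz z hzB hH
  obtain ⟨δ, hδ0, hδ⟩ := exists_perp (C.e (i + 1) z) hee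
  obtain ⟨ζ, h1, h2⟩ := surj_gen C hz (i + 1) hjN 0 δ (inner_zero_right _) hδ
  have hnz : fderiv ℝ (C.n (i + 1)) z ζ = 0 := by
    rw [C.njac (i + 1) hjN z hz, h1, map_zero, neg_zero]
  have hnδ : ⟪C.n (i + 1) z, δ⟫_ℝ = 0 := by
    rw [hpar, inner_smul_left] at hδ
    exact (mul_eq_zero.1 hδ).resolve_left (by simpa using htr)
  have hin := (C.dn (i + 1) hi z hz).hasFDerivAt.inner ℝ (C.de (i + 1) hi z hz).hasFDerivAt
  have hFD := (C.de (i + 1) hi z hz).hasFDerivAt.sub (hin.smul (C.dn (i + 1) hi z hz).hasFDerivAt)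
  have hfe : (fun z => C.e (i + 1) z - ⟪C.n (i + 1) z, C.e (i + 1) z⟫_ℝ • C.n (i + 1) z) =
      (C.e (i + 1) - (fun z => ⟪C.n (i + 1) z, C.e (i + 1) z⟫_ℝ) • C.n (i + 1)) := by
    funext z; rfl
  rw [hfe, hFD.fderiv] at hf
  have hf2 := congrArg (fun f => f ζ) hf
  simp only [sub_apply, add_apply, smul_apply, ContinuousLinearMap.smulRight_apply,
    ContinuousLinearMap.comp_apply, ContinuousLinearMap.prod_apply, fderivInnerCLM_apply,
    zero_apply, hnz, h2, hnδ, inner_zero_left, smul_zero, add_zero, zero_smul, sub_zero] at hf2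
  exact hδ0 hf2


/-! ### Flat segments -/

theorem fderiv_fst {Z₁ Z₂ E : Type*} [NormedAddCommGroup Z₁] [NormedSpace ℝ Z₁]
    [NormedAddCommGroup Z₂] [NormedSpace ℝ Z₂] [NormedAddCommGroup E] [NormedSpace ℝ E]
    (g : Z₁ → E) (z : Z₁ × Z₂) (hd : DifferentiableAt ℝ (fun z : Z₁ × Z₂ => g z.1) z) (ζ : Z₂) :
    fderiv ℝ (fun z : Z₁ × Z₂ => g z.1) z (0, ζ) = 0 := by
  have h1 := hd.hasFDerivAt.hasLineDerivAt (0, ζ)
  unfold HasLineDerivAt at h1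
  have h2 : (fun t : ℝ => g (z + t • ((0 : Z₁), ζ)).1) = fun _ => g z.1 := by
    funext t
    simp
  rw [h2] at h1
  exact h1.unique (hasDerivAt_const _ _)

theorem fderiv_snd' {Z₁ Z₂ E : Type*} [NormedAddCommGroup Z₁] [NormedSpace ℝ Z₁]
    [NormedAddCommGroup Z₂] [NormedSpace ℝ Z₂] [NormedAddCommGroup E] [NormedSpace ℝ E]
    (g : Z₂ → E) (z : Z₁ × Z₂) (hd : DifferentiableAt ℝ (fun z : Z₁ × Z₂ => g z.2) z) (ζ : Z₁) :
    fderiv ℝ (fun z : Z₁ × Z₂ => g z.2) z (ζ, 0) = 0 := by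
  have h1 := hd.hasFDerivAt.hasLineDerivAt (ζ, 0)
  unfold HasLineDerivAt at h1
  have h2 : (fun t : ℝ => g (z + t • (ζ, (0 : Z₂))).2) = fun _ => g z.2 := by
    funext t
    simp
  rw [h2] at h1
  exact h1.unique (hasDerivAt_const _ _)

theorem flat_aux {E Z : Type*} [NormedAddCommGroup E] [InnerProductSpace ℝ E]
    [NormedAddCommGroup Z] [NormedSpace ℝ Z] (C : Chn E Z) {z : Z} (hz : z ∈ C.U) (ζ : Z)
    (h0 : fderiv ℝ (C.x 0) z ζ = 0) (j : ℕ) (hS : ∀ i, 1 ≤ i → i < j → C.S i z = 0)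
    (hL : ∀ i < j, 0 < C.L i z) :
    ∀ k, k < j → k < C.N → ∃ α Λ : ℝ, 0 < Λ ∧
      fderiv ℝ (C.x (k + 1)) z ζ = α • C.e k z + Λ • fderiv ℝ (C.e k) z ζ ∧
      (fderiv ℝ (C.e k) z ζ = 0 → fderiv ℝ (C.e 0) z ζ = 0) := by
  have hstep : ∀ k < C.N, fderiv ℝ (C.x (k + 1)) z ζ =
      fderiv ℝ (C.x k) z ζ + fderiv ℝ (C.L k) z ζ • C.e k z + C.L k z • fderiv ℝ (C.e k) z ζ :=
    fun k hk => G3_step C.hU hz (C.dx k hk.le z hz) (C.de k hk.le z hz) (C.dL k hk z hz)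
      (fun z _ => C.step k hk z) ζ
  intro k
  induction k with
  | zero =>
    intro hj0 hN
    refine ⟨fderiv ℝ (C.L 0) z ζ, C.L 0 z, hL 0 hj0, ?_, fun h => h⟩
    rw [hstep 0 hN, h0, zero_add]
  | succ k ih =>
    intro hkj hkN
    obtain ⟨α, Λ, hΛ, h1, h2⟩ := ih (by omega) (by omega)
    have hk : k < C.N := by omega
    have hrj : fderiv ℝ (C.e (k + 1)) z ζ = rf (C.n (k + 1) z) (fderiv ℝ (C.e k) z ζ)
        - (2 * ⟪fderiv ℝ (C.n (k + 1)) z ζ, C.e k z⟫_ℝ) • C.n (k + 1) z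
        - (2 * ⟪C.n (k + 1) z, C.e k z⟫_ℝ) • fderiv ℝ (C.n (k + 1)) z ζ := by
      have h1 : C.e (k + 1) = fun z => rf (C.n (k + 1) z) (C.e k z) := by
        funext z; exact C.refl k hk z
      rw [h1]
      exact G3_rf_fderiv (C.dn (k + 1) hk z hz) (C.de k hk.le z hz) ζ
    have hn0 : fderiv ℝ (C.n (k + 1)) z ζ = 0 := by
      rw [C.njac (k + 1) hkN z hz, hS (k + 1) (by omega) hkj]
      simp
    rw [hn0] at hrj
    simp only [inner_zero_left, mul_zero, zero_smul, smul_zero, sub_zero] at hrj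
    have hX : fderiv ℝ (C.x (k + 1)) z ζ = α • C.e (k + 1) z + Λ • fderiv ℝ (C.e (k + 1)) z ζ := by
      have h3 := G3_rf_tan (C.tan (k + 1) hkN z hz ζ)
      rw [← h3]
      nth_rewrite 1 [h1]
      rw [G3_rf_add, G3_rf_smul, G3_rf_smul, ← hrj, ← C.refl k hk z]
    refine ⟨α + fderiv ℝ (C.L (k + 1)) z ζ, Λ + C.L (k + 1) z,
      add_pos hΛ (hL (k + 1) hkj), ?_, fun h => h2 ?_⟩
    · rw [hstep (k + 1) hkN, hX]
      module
    · rw [hrj] at h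
      rw [← G3_rf_invol (C.nn (k + 1) hkN z hz) (fderiv ℝ (C.e k) z ζ), h]
      unfold rf
      simp

/-- FLAT -/
theorem flat (_ : S2_SURJ) : S2_FLAT := by
  intro m Z₁ Z₂ _ _ _ _ _ C z hz hsp hfr j hj1 hjN hS hL ζ hζ
  obtain ⟨i, rfl⟩ : ∃ i, j = i + 1 := ⟨j - 1, by omega⟩
  have hi : i < C.N := by omega
  have h0 : fderiv ℝ (C.x 0) z (0, ζ) = 0 := by
    obtain ⟨X, hX⟩ := hsp.x0
    have hd := C.dx 0 (by omega) z hz
    rw [hX] at hd ⊢
    exact fderiv_fst X z hd ζ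
  obtain ⟨α, Λ, hΛ, h1, h2⟩ := flat_aux C hz (0, ζ) h0 (i + 1) hS hL i (by omega) hi
  rw [hζ] at h1
  have hun : ⟪C.e i z, fderiv ℝ (C.e i) z (0, ζ)⟫_ℝ = 0 :=
    G3_unit C.hU hz (C.de i hi.le z hz) (C.ee i hi) (0, ζ)
  have h3 : fderiv ℝ (C.e i) z (0, ζ) = 0 := by
    have h4 := congrArg (fun v => ⟪v, fderiv ℝ (C.e i) z (0, ζ)⟫_ℝ) h1
    simp only [inner_zero_left, inner_add_left, inner_smul_left, hun, mul_zero, zero_add,
      conj_trivial] at h4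
    have h5 := (mul_eq_zero.1 h4.symm).resolve_left hΛ.ne'
    exact inner_self_eq_zero.1 h5
  have hD := h2 h3
  -- the initial direction
  have hN0 : 0 < C.N := C.hN
  have he0 : C.e 0 z ≠ 0 := by
    intro h
    have := C.ee 0 hN0 z hz
    rw [h] at this
    simp at this
  let A : Z₂ →ₗ[ℝ] EE m := (fderiv ℝ (C.e 0) z : Z₁ × Z₂ →ₗ[ℝ] EE m).comp (LinearMap.inr ℝ Z₁ Z₂)
  have hA : ∀ v, A v = fderiv ℝ (C.e 0) z (0, v) := fun v => rfl
  have hr : (ℝ ∙ C.e 0 z)ᗮ ≤ LinearMap.range A := by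
    intro δ hδ
    obtain ⟨⟨a, b⟩, -, h5⟩ := C.surj z hz 0 δ (inner_zero_right _)
      (Submodule.mem_orthogonal_singleton_iff_inner_right.1 hδ)
    refine ⟨b, ?_⟩
    rw [hA, ← h5]
    have h6 : ((a, b) : Z₁ × Z₂) = (a, 0) + (0, b) := by simp
    rw [h6, map_add]
    have h7 : fderiv ℝ (C.e 0) z (a, 0) = 0 := by
      obtain ⟨Y, hY⟩ := hsp.e0
      have hd := C.de 0 (by omega) z hz
      rw [hY] at hd ⊢
      exact fderiv_snd' Y z hd a
    rw [h7, zero_add]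
  have h5 := Submodule.finrank_mono hr
  rw [finrank_perp _ he0] at h5
  have h6 := LinearMap.finrank_range_add_finrank_ker A
  rw [hfr] at h6
  have h7 : Module.finrank ℝ (LinearMap.ker A) = 0 := by omega
  have h8 := Submodule.finrank_eq_zero.1 h7
  have h9 : ζ ∈ LinearMap.ker A := by
    rw [LinearMap.mem_ker, hA]
    exact hD
  rw [h8] at h9
  exact (Submodule.mem_bot ℝ).1 h9

end Pool.Agent.Y294.IV.D
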