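import Pool.Agent.Y294.IV.D.Glob
import Pool.Agent.Y294.IV.D.Chart
import Pool.Agent.Y294.IV.D.Pt
import Pool.Agent.Y294.IV.D.Surj
import Pool.Agent.Y294.TB2.Main

/-!
Rays of invisibility in all dimensions with at most two reflections which are not at noncircular
algebraic boundary points: one of the two at an algebraic point, or the reflections between them at
points of zero curvature.
-/

set_option autoImplicit false

open MeasureTheory Set Filter Topology
open scoped InnerProductSpace

namespace Pool.Agent.Y294.IV.D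

theorem local_thm2 : S2_LOCAL :=
  local2 Pool.Agent.Y568.TB2.sel Pool.Agent.Y641.TB.good ni
    (pt1 surj Pool.Agent.Y641.TB.dep) (pt2 surj Pool.Agent.Y641.TB.dep)
    (pt3 surj Pool.Agent.Y641.TB.dep) (flat surj) Pool.Agent.Y568.TB2.two
    Pool.Agent.Y294.TB2.core2_

theorem main {d : ℕ} (hd : 2 ≤ d) (B : Set (EuclideanSpace ℝ (Fin d))) :
    μH[((2 * d - 2 : ℕ) : ℝ)] (InvPair B) = 0 :=
  invPair_null chart local_thm2 Pool.Agent.Y641.TB.good
    (pt1 surj Pool.Agent.Y641.TB.dep) (pt2 surj Pool.Agent.Y641.TB.dep)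
    (pt3 surj Pool.Agent.Y641.TB.dep) Pool.Agent.Y294.TB2.core2_ hd B

end Pool.Agent.Y294.IV.D
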